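import Pool.Agent.H.MP_2655df_gt.B

set_option autoImplicit false

namespace Pool.Agent.H.MP_3498ef_gt

open Filter Topology Set Pool.Agent.H.MP_2655df_gt

variable {C : Set V}

lemma M_base (hC : Cone C) {O : V} (hO : O ∈ C) (v : V) {s : ℝ} (hs : 0 < s) :
    M C (s • O) v = M C O v / s := by
  apply hC.M_eq (hC.smul _ hO s hs)
  intro t
  rw [smul_smul, hC.mem_iff hO, div_lt_iff₀ hs]

lemma M_pos (hC : Cone C) {X Y : V} (hX : X ∈ C) (hY : Y ∈ C) : 0 < M C X Y := by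
  obtain ⟨α, h1, h2⟩ := hC.M_att hX Y
  rw [← h2]; exact h1.1 Y hY

lemma rep (f : V →L[ℝ] ℝ) : ∃ a : V, ∀ z : V, dot a z = - f z := by
  refine ⟨((-f ((1, 0), 0), -f ((0, 1), 0)), -f ((0, 0), 1)), fun z => ?_⟩
  have : z = z.1.1 • (((1, 0), 0) : V) + z.1.2 • (((0, 1), 0) : V) + z.2 • (((0, 0), 1) : V) := by
    ext <;> simp
  conv_rhs => rw [this]
  simp only [map_add, map_smul, smul_eq_mul, dot]; ring

lemma nonneg_of_ray {a b u : ℝ} (h : ∀ t : ℝ, 0 < t → b - t * a < u) : 0 ≤ a := by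
  by_contra h1
  push Not at h1
  have h2 := h ((|u - b| + 1) / (-a)) (div_pos (by positivity) (by linarith))
  have h3 : (|u - b| + 1) / (-a) * a = -(|u - b| + 1) := by
    have := h1.ne
    field_simp
  rw [h3] at h2
  have := le_abs_self (u - b)
  linarith

lemma strong (hC : Cone C) {B X Y₀ e : V} (hX : X ∈ C) (hY : Y₀ ∈ C) (hB : dot B Y₀ = 0)
    (he : dot B e = 1) {ρ : ℝ} (h : ∀ Y ∈ C, dot B Y = 0 → ρ ≤ M C X Y * M C Y X) :
    ∃ (α β : V) (μ : ℝ), Adm C α ∧ Adm C β ∧ (∀ v, dot α v = dot β v + μ * dot B v) ∧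
      ρ * dot β X ≤ dot α X := by
  let A : Set (V × V) := {p | dot B (p.1 + X) = 0 ∧ p.1 + p.2 = (ρ - 1) • X}
  have hA : Convex ℝ A := by
    rintro p ⟨p1, p2⟩ q ⟨q1, q2⟩ a b ha hb hab
    constructor
    · simp only [Prod.fst_add, Prod.smul_fst, dot_add, dot_smul] at p1 q1 ⊢
      linear_combination a * p1 + b * q1 - dot B X * hab
    · simp only [Prod.fst_add, Prod.smul_fst, Prod.snd_add, Prod.smul_snd]
      have : a • p.1 + b • q.1 + (a • p.2 + b • q.2) = a • (p.1 + p.2) + b • (q.1 + q.2) := by module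
      rw [this, p2, q2, ← add_smul, hab, one_smul]
  have hdis : Disjoint (C ×ˢ C) A := by
    rw [Set.disjoint_left]
    rintro p ⟨p1, p2⟩ ⟨q1, q2⟩
    have hY := hC.add _ p1 _ hX
    have k := h _ hY q1
    have k1 : M C X (p.1 + X) < ρ := by
      rw [← hC.mem_iff hX]
      have : ρ • X - (p.1 + X) = p.2 := by
        rw [sub_smul, one_smul] at q2
        have : ρ • X = p.1 + p.2 + X := by rw [q2]; abel
        rw [this]; abel
      rw [this]; exact p2
    have k2 : M C (p.1 + X) X < 1 := by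
      rw [← hC.mem_iff hY]; simpa using p1
    have := M_pos hC hX hY
    have := M_pos hC hY hX
    nlinarith
  obtain ⟨f, u, f1, f2⟩ := geometric_hahn_banach_open (hC.convex.prod hC.convex) (hC.op.prod hC.op)
    hA hdis
  obtain ⟨α, hα⟩ := rep (f.comp (ContinuousLinearMap.inl ℝ V V))
  obtain ⟨β, hβ⟩ := rep (f.comp (ContinuousLinearMap.inr ℝ V V))
  have hf : ∀ v w : V, f (v, w) = - dot α v - dot β w := by
    intro v w
    rw [hα, hβ]
    have : (v, w) = (v, (0 : V)) + ((0 : V), w) := by simp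
    rw [this, map_add]; simp
  have g1 : ∀ v ∈ C, ∀ w ∈ C, - dot α v - dot β w < u := fun v hv w hw => by
    rw [← hf]; exact f1 _ ⟨hv, hw⟩
  have g2 : ∀ Y, dot B Y = 0 → u ≤ dot β Y - dot α Y + dot α X - ρ * dot β X := by
    intro Y hY
    have := f2 (Y - X, ρ • X - Y) ⟨by simpa using hY, by simp only []; module⟩
    rw [hf] at this
    simp only [dot_sub, dot_smul] at this
    linarith
  have a0 : ∀ v ∈ C, 0 ≤ dot α v := fun v hv =>
    nonneg_of_ray (b := - dot β X) (u := u) fun t ht => by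
      have := g1 _ (hC.smul _ hv t ht) _ hX
      rw [dot_smul] at this; linarith
  have b0 : ∀ v ∈ C, 0 ≤ dot β v := fun v hv =>
    nonneg_of_ray (b := - dot α X) (u := u) fun t ht => by
      have := g1 _ hX _ (hC.smul _ hv t ht)
      rw [dot_smul] at this; linarith
  have u0 : 0 ≤ u := by
    by_contra hu
    push Not at hu
    have p1 := a0 X hX
    have p2 := b0 X hX
    have hp : 0 < dot α X + dot β X + 1 := by linarith
    have ht : 0 < -u / (dot α X + dot β X + 1) := div_pos (by linarith) hp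
    have := g1 _ (hC.smul _ hX _ ht) _ (hC.smul _ hX _ ht)
    rw [dot_smul, dot_smul] at this
    have e : -u / (dot α X + dot β X + 1) * (dot α X + dot β X + 1) = -u := by field_simp
    nlinarith
  have kz : ∀ Y, dot B Y = 0 → dot α Y = dot β Y := by
    have k1 : ∀ Y, dot B Y = 0 → 0 ≤ dot β Y - dot α Y := fun Y hY =>
      nonneg_of_ray (b := 0) (u := dot α X - ρ * dot β X - u + 1) fun t ht => by
        have := g2 (t • Y) (by rw [dot_smul, hY, mul_zero])
        rw [dot_smul, dot_smul] at this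
        linarith
    intro Y hY
    have := k1 Y hY
    have := k1 (-Y) (by simp [hY])
    simp only [dot_neg] at this
    linarith
  have g3 := g2 0 (by simp)
  simp only [dot_zero] at g3
  have pY : 0 < dot α Y₀ := by
    rcases (a0 _ hY).eq_or_lt with h0 | h0
    · exfalso
      obtain ⟨δ, hδ, h2⟩ := hC.small hY X
      have h3 := h2 (-(δ / 2)) (by rw [abs_neg, abs_of_pos (by linarith)]; linarith)
      have k1 := a0 _ h3
      have k2 := b0 _ h3
      have k3 := kz _ hB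
      simp only [dot_add, dot_smul] at k1 k2
      have k4 : dot α X = 0 := le_antisymm (by nlinarith) (a0 X hX)
      have k5 : dot β X = 0 := le_antisymm (by nlinarith) (b0 X hX)
      have := g1 _ hY _ hY
      rw [k4, k5] at g3
      linarith
    · exact h0
  refine ⟨α, β, dot α e - dot β e, hC.adm_of_nonneg pY a0,
    hC.adm_of_nonneg (O := Y₀) (by rw [← kz _ hB]; exact pY) b0, fun v => ?_, by linarith⟩
  have := kz (v - dot B v • e) (by simp [he])
  simp only [dot_sub, dot_smul] at this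
  linarith

/-- the functional of the leading line -/
noncomputable def BB : V := ((-5 / 3, 0), 4 / 3)

lemma dot_BB (v : V) : dot BB v = (4 * v.2 - 5 * v.1.1) / 3 := by
  simp [dot, BB]; ring

noncomputable def W (Ω : Set (ℝ × ℝ)) (X : ℝ × ℝ) : ℝ :=
  sInf (dd Ω X '' {Y | Y.1 = 4 / 5 ∧ Y ∈ Ω})

def Pair (C : Set V) (α β : V) (μ : ℝ) : Prop :=
  Adm C α ∧ Adm C β ∧ ∀ v, dot α v = dot β v + μ * dot BB v

variable {Ω : Set (ℝ × ℝ)}

lemma weak0 (hC : Cone (cone Ω)) {X Y : ℝ × ℝ} (hX : X ∈ Ω) (hY : Y ∈ Ω) (h : Y.1 = 4 / 5)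
    {α β : V} {μ : ℝ} (hp : Pair (cone Ω) α β μ) :
    Real.log (dot α (X, 1) / dot β (X, 1)) / 2 ≤ dd Ω X Y := by
  have hX' := (mem_cone X).2 hX
  have hY' := (mem_cone Y).2 hY
  rw [dd_eq hC hX hY]
  have k := hC.log_ge hp.1 hp.2.1 hX' hY'
  have e : L α β (Y, 1) = 0 := by
    unfold L
    rw [hp.2.2, dot_BB]
    simp only [h]
    norm_num
  rw [e, sub_zero] at k
  have k2 := le_abs_self (L α β (X, 1))
  rw [Real.log_div (hp.1 _ hX').ne' (hp.2.1 _ hX').ne']
  unfold L at k k2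
  linarith

lemma weak (hC : Cone (cone Ω)) (h0 : ((4 / 5, 0) : ℝ × ℝ) ∈ Ω) {X : ℝ × ℝ} (hX : X ∈ Ω)
    {α β : V} {μ : ℝ} (hp : Pair (cone Ω) α β μ) :
    dot α (X, 1) ≤ Real.exp (2 * W Ω X) * dot β (X, 1) := by
  have hX' := (mem_cone X).2 hX
  have p1 := hp.1 _ hX'
  have p2 := hp.2.1 _ hX'
  have : Real.log (dot α (X, 1) / dot β (X, 1)) / 2 ≤ W Ω X := by
    unfold W
    refine le_csInf ⟨_, ⟨((4 / 5, 0) : ℝ × ℝ), ⟨rfl, h0⟩, rfl⟩⟩ ?_
    rintro _ ⟨Y, ⟨h1, h2⟩, rfl⟩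
    exact weak0 hC hX h2 h1 hp
  rw [← div_le_iff₀ p2, ← Real.log_le_iff_le_exp (by positivity)]
  linarith

lemma strongW (hC : Cone (cone Ω)) (h0 : ((4 / 5, 0) : ℝ × ℝ) ∈ Ω) {X : ℝ × ℝ} (hX : X ∈ Ω) :
    ∃ (α β : V) (μ : ℝ), Pair (cone Ω) α β μ ∧
      Real.exp (2 * W Ω X) * dot β (X, 1) ≤ dot α (X, 1) := by
  have hX' := (mem_cone X).2 hX
  have hY' := (mem_cone _).2 h0
  obtain ⟨α, β, μ, h1, h2, h3, h4⟩ := strong hC (B := BB) (e := ((0, 0), 3 / 4)) hX' hY'
    (by rw [dot_BB]; norm_num) (by rw [dot_BB]; norm_num) (ρ := Real.exp (2 * W Ω X)) (by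
      intro Y hY hB
      have hz := hY.1
      have hy := hY.2
      set y := (Y.2)⁻¹ • Y.1 with hydef
      have e : Y = Y.2 • ((y, 1) : V) := by
        ext <;> simp [hydef] <;> field_simp
      have hy' := (mem_cone y).2 hy
      have hy1 : y.1 = 4 / 5 := by
        rw [dot_BB] at hB
        simp only [hydef, Prod.smul_fst, smul_eq_mul]
        field_simp; linarith
      rw [e, hC.M_smul hX' _ hz, M_base hC hy' _ hz]
      have e2 : Y.2 * M (cone Ω) (X, 1) (y, 1) * (M (cone Ω) (y, 1) (X, 1) / Y.2) =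
          M (cone Ω) (X, 1) (y, 1) * M (cone Ω) (y, 1) (X, 1) := by field_simp
      rw [e2, ← Real.le_log_iff_exp_le (mul_pos (M_pos hC hX' hy') (M_pos hC hy' hX'))]
      obtain ⟨γ, g1, -⟩ := hC.M_att hX' (X, 1)
      have hb : BddBelow (dd Ω X '' {Y | Y.1 = 4 / 5 ∧ Y ∈ Ω}) := by
        refine ⟨Real.log (dot γ (X, 1) / dot γ (X, 1)) / 2, ?_⟩
        rintro _ ⟨Y, ⟨h1, h2⟩, rfl⟩
        exact weak0 hC hX h2 h1 (μ := 0) ⟨g1.1, g1.1, fun v => by simp⟩
      have := csInf_le hb ⟨y, ⟨hy1, hy⟩, rfl⟩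
      rw [dd_eq hC hX hy] at this
      unfold W; linarith)
  exact ⟨α, β, μ, ⟨h1, h2, h3⟩, h4⟩

end Pool.Agent.H.MP_3498ef_gt
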