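import Pool.Agent.H.MP_3498ef_gt.A

set_option autoImplicit false

namespace Pool.Agent.H.MP_3498ef_gt

open Filter Topology Set Pool.Agent.H.MP_2655df_gt

noncomputable def nn (u : ℝ × ℝ) : ℝ := Real.sqrt (u.1 ^ 2 + u.2 ^ 2)

lemma nn_nonneg (u : ℝ × ℝ) : 0 ≤ nn u := Real.sqrt_nonneg _

lemma nn_sq (u : ℝ × ℝ) : nn u ^ 2 = u.1 ^ 2 + u.2 ^ 2 := Real.sq_sqrt (by positivity)

lemma nn_eq {u : ℝ × ℝ} {r : ℝ} (hr : 0 ≤ r) (h : r ^ 2 = u.1 ^ 2 + u.2 ^ 2) : nn u = r := by
  unfold nn; rw [← h, Real.sqrt_sq hr]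

lemma nn_smul (u : ℝ × ℝ) {s : ℝ} (hs : 0 ≤ s) : nn (s • u) = s * nn u := by
  apply nn_eq (mul_nonneg hs (nn_nonneg u))
  rw [mul_pow, nn_sq]; simp; ring

lemma nn_neg (u : ℝ × ℝ) : nn (-u) = nn u := by simp [nn]

lemma nn_pos {u : ℝ × ℝ} (h : u ≠ 0) : 0 < nn u := by
  rcases (nn_nonneg u).eq_or_lt with h0 | h0
  · exfalso; apply h
    have := nn_sq u
    rw [← h0] at this
    ext <;> simp <;> nlinarith [sq_nonneg u.1, sq_nonneg u.2]
  · exact h0

lemma cs (a u : ℝ × ℝ) : a.1 * u.1 + a.2 * u.2 ≤ nn a * nn u := by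
  refine (abs_le_of_sq_le_sq' ?_ (mul_nonneg (nn_nonneg a) (nn_nonneg u))).2
  rw [mul_pow, nn_sq, nn_sq]
  nlinarith [sq_nonneg (a.1 * u.2 - a.2 * u.1)]

lemma abs1 (u : ℝ × ℝ) : |u.1| ≤ nn u :=
  abs_le_of_sq_le_sq' (by rw [nn_sq]; nlinarith [sq_nonneg u.2]) (nn_nonneg u) |> abs_le.2

lemma abs2 (u : ℝ × ℝ) : |u.2| ≤ nn u :=
  abs_le_of_sq_le_sq' (by rw [nn_sq]; nlinarith [sq_nonneg u.1]) (nn_nonneg u) |> abs_le.2

lemma nn_add (u v : ℝ × ℝ) : nn (u + v) ≤ nn u + nn v := by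
  refine (abs_le_of_sq_le_sq' ?_ (add_nonneg (nn_nonneg u) (nn_nonneg v))).2
  rw [add_sq, nn_sq, nn_sq, nn_sq]
  have := cs u v
  simp; nlinarith

lemma nn_cont : Continuous nn := by unfold nn; fun_prop

structure Gauge (g : ℝ × ℝ → ℝ) : Prop where
  hom : ∀ u s, 0 ≤ s → g (s • u) = s * g u
  sub : ∀ u v, g (u + v) - nn (u + v) / 8 ≤ (g u - nn u / 8) + (g v - nn v / 8)
  lo : ∀ u, nn u ≤ g u
  hi : ∀ u, g u ≤ 9 / 8 * nn u

def Om (g : ℝ × ℝ → ℝ) : Set (ℝ × ℝ) := {u | g u < 1}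

variable {g : ℝ × ℝ → ℝ}

lemma Gauge.add (h : Gauge g) (u v : ℝ × ℝ) : g (u + v) ≤ g u + g v := by
  have := h.sub u v
  have := nn_add u v
  linarith

lemma Gauge.nonneg (h : Gauge g) (u : ℝ × ℝ) : 0 ≤ g u := le_trans (nn_nonneg u) (h.lo u)

lemma Gauge.zero (h : Gauge g) : g 0 = 0 := by simpa using h.hom 0 0 le_rfl

lemma Gauge.cont (h : Gauge g) : Continuous g := by
  rw [continuous_iff_continuousAt]
  intro x
  have key : ∀ y, |g y - g x| ≤ 2 * nn (y - x) := by
    intro y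
    have k1 := h.add x (y - x)
    have k2 := h.add y (-(y - x))
    have k3 := h.hi (y - x)
    have k4 := h.hi (-(y - x))
    have k5 := nn_nonneg (y - x)
    rw [nn_neg] at k4
    rw [add_sub_cancel] at k1
    rw [← sub_eq_add_neg, sub_sub_cancel] at k2
    rw [abs_le]; constructor <;> linarith
  rw [ContinuousAt, tendsto_iff_norm_sub_tendsto_zero]
  have h2 : Tendsto (fun y => 2 * nn (y - x)) (𝓝 x) (𝓝 0) := by
    have : Continuous (fun y => 2 * nn (y - x)) :=
      continuous_const.mul (nn_cont.comp (continuous_id.sub continuous_const))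
    simpa [nn] using this.tendsto x
  exact squeeze_zero (fun y => norm_nonneg _) key h2

lemma Gauge.comb (h : Gauge g) (x y : ℝ × ℝ) {a b : ℝ} (ha : 0 ≤ a) (hb : 0 ≤ b) :
    g (a • x + b • y) ≤ a * g x + b * g y := by
  rw [← h.hom x a ha, ← h.hom y b hb]; exact h.add _ _

lemma Gauge.isOpen (h : Gauge g) : IsOpen (Om g) := isOpen_lt h.cont continuous_const

lemma Gauge.convex (h : Gauge g) : Convex ℝ (Om g) := by
  intro x hx y hy a b ha hb hab
  have := h.comb x y ha hb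
  have hx' : g x < 1 := hx
  have hy' : g y < 1 := hy
  show g _ < 1
  rcases ha.eq_or_lt with ha | ha
  · subst ha; nlinarith
  · nlinarith

lemma Gauge.bdd (h : Gauge g) : Bornology.IsBounded (Om g) := by
  rw [isBounded_iff_forall_norm_le]
  refine ⟨1, fun x hx => ?_⟩
  have hx' : g x < 1 := hx
  have := h.lo x
  have := abs1 x
  have := abs2 x
  rw [Prod.norm_def, max_le_iff, Real.norm_eq_abs, Real.norm_eq_abs]
  constructor <;> linarith

lemma Gauge.cone_ok (h : Gauge g) : Cone (cone (Om g)) :=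
  Pool.Agent.H.MP_2655df_gt.cone_ok h.isOpen h.convex h.bdd

lemma Gauge.mem (h : Gauge g) (v : V) : v ∈ cone (Om g) ↔ g v.1 < v.2 := by
  constructor
  · rintro ⟨h1, h2⟩
    have h3 : g (v.2⁻¹ • v.1) < 1 := h2
    rw [h.hom _ _ (inv_pos.2 h1).le, inv_mul_lt_iff₀ h1] at h3
    linarith
  · intro h1
    have h0 : 0 < v.2 := lt_of_le_of_lt (h.nonneg _) h1
    refine ⟨h0, ?_⟩
    show g _ < 1
    rw [h.hom _ _ (inv_pos.2 h0).le, inv_mul_lt_iff₀ h0]
    linarith

lemma Gauge.strict0 (h : Gauge g) {x y : ℝ × ℝ} (hx : g x ≤ 1) (hy : g y ≤ 1) (hn : nn x < nn y)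
    (he : nn y • x = nn x • y) : g x < 1 := by
  have k1 := h.hom x _ (nn_nonneg y)
  have k2 := h.hom y _ (nn_nonneg x)
  rw [he, k2] at k1
  have := nn_nonneg x
  by_contra h1
  have : g x = 1 := by linarith
  rw [this] at k1
  nlinarith

lemma Gauge.strict (h : Gauge g) : StrictConvex ℝ (closure (Om g)) := by
  have hcl : closure (Om g) ⊆ {u | g u ≤ 1} :=
    closure_minimal (fun u hu => le_of_lt (show g u < 1 from hu))
      (isClosed_le h.cont continuous_const)
  intro x hx y hy hxy a b ha hb hab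
  have hx' : g x ≤ 1 := hcl hx
  have hy' : g y ≤ 1 := hcl hy
  apply interior_mono subset_closure
  rw [h.isOpen.interior_eq]
  show g _ < 1
  have k0 := h.comb x y ha.le hb.le
  by_contra hc
  push Not at hc
  have e1 : g x = 1 := by nlinarith
  have e2 : g y = 1 := by nlinarith
  have k1 := h.sub (a • x) (b • y)
  rw [h.hom _ _ ha.le, h.hom _ _ hb.le, nn_smul _ ha.le, nn_smul _ hb.le, e1, e2] at k1
  have k2 : a * nn x + b * nn y ≤ nn (a • x + b • y) := by linarith
  have p1 := nn_nonneg x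
  have p2 := nn_nonneg y
  have k3 : (a * nn x + b * nn y) ^ 2 ≤ nn (a • x + b • y) ^ 2 := by gcongr
  have s1 := nn_sq x
  have s2 := nn_sq y
  rw [nn_sq] at k3
  simp only [Prod.fst_add, Prod.smul_fst, Prod.snd_add, Prod.smul_snd, smul_eq_mul] at k3
  have k4 : nn x * nn y ≤ x.1 * y.1 + x.2 * y.2 := by
    have : a * b * (nn x * nn y) ≤ a * b * (x.1 * y.1 + x.2 * y.2) := by
      have e : (a * nn x + b * nn y) ^ 2 = a ^ 2 * (x.1 ^ 2 + x.2 ^ 2) + b ^ 2 * (y.1 ^ 2 + y.2 ^ 2)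
          + 2 * (a * b * (nn x * nn y)) := by rw [← s1, ← s2]; ring
      rw [e] at k3
      linarith
    exact le_of_mul_le_mul_left this (mul_pos ha hb)
  have k5 : (nn y * x.1 - nn x * y.1) ^ 2 + (nn y * x.2 - nn x * y.2) ^ 2 ≤ 0 := by
    have : (nn y * x.1 - nn x * y.1) ^ 2 + (nn y * x.2 - nn x * y.2) ^ 2 =
        2 * (nn x * nn y) * (nn x * nn y - (x.1 * y.1 + x.2 * y.2)) := by
      linear_combination (-nn y ^ 2) * s1 - nn x ^ 2 * s2
    rw [this]
    exact mul_nonpos_of_nonneg_of_nonpos (by positivity) (by linarith)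
  have he : nn y • x = nn x • y := by
    ext <;> simp only [Prod.smul_fst, Prod.smul_snd, smul_eq_mul] <;>
      nlinarith [sq_nonneg (nn y * x.1 - nn x * y.1), sq_nonneg (nn y * x.2 - nn x * y.2)]
  rcases lt_trichotomy (nn x) (nn y) with hn | hn | hn
  · have := h.strict0 hx' hy' hn he; linarith
  · have hx0 : x ≠ 0 := by
      rintro rfl; rw [h.zero] at e1; norm_num at e1
    rw [← hn] at he
    exact hxy (smul_right_injective _ (nn_pos hx0).ne' he)
  · have := h.strict0 hy' hx' hn he.symm; linarith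

lemma Gauge.dd0 (h : Gauge g) {X : ℝ × ℝ} (hX : X ∈ Om g) :
    dd (Om g) 0 X = (1 / 2) * Real.log ((1 + g (-X)) / (1 - g X)) := by
  have h0 : (0 : ℝ × ℝ) ∈ Om g := by show g 0 < 1; rw [h.zero]; norm_num
  have hX' : g X < 1 := hX
  have hC := h.cone_ok
  rw [dd_eq hC h0 hX]
  have e1 : M (cone (Om g)) (0, 1) (X, 1) = 1 + g (-X) := by
    apply hC.M_eq ((mem_cone _).2 h0)
    intro t
    rw [h.mem]
    simp only [Prod.fst_sub, Prod.smul_fst, smul_zero, zero_sub, Prod.snd_sub, Prod.smul_snd,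
      smul_eq_mul, mul_one]
    constructor <;> intro h <;> linarith
  have e2 : M (cone (Om g)) (X, 1) (0, 1) = 1 / (1 - g X) := by
    apply hC.M_eq ((mem_cone _).2 hX)
    intro t
    rw [h.mem, div_lt_iff₀ (by linarith)]
    simp only [Prod.fst_sub, Prod.smul_fst, sub_zero, Prod.snd_sub, Prod.smul_snd,
      smul_eq_mul, mul_one]
    rcases le_or_gt 0 t with ht | ht
    · rw [h.hom _ _ ht]; constructor <;> intro h <;> linarith
    · have := h.nonneg (t • X)
      constructor <;> intro h <;> nlinarith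
  rw [e1, e2, mul_one_div]

lemma Gauge.closed (h : Gauge g) {α : V} (hα : Adm (cone (Om g)) α) {w : ℝ × ℝ} {z : ℝ}
    (hw : g w ≤ z) : 0 ≤ dot α (w, z) := by
  have := nonneg_of_ray (a := dot α (w, z)) (b := - dot α (0, 1)) (u := 0) fun t ht => by
    have := hα (t • ((w, z) : V) + (0, 1)) (by
      rw [h.mem]; simp only [Prod.fst_add, Prod.smul_fst, add_zero, Prod.snd_add, Prod.smul_snd,
        smul_eq_mul]
      rw [h.hom _ _ ht.le]; nlinarith)
    rw [dot_add, dot_smul] at this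
    linarith
  exact this

noncomputable def RR (g : ℝ × ℝ → ℝ) (X : ℝ × ℝ) : ℝ :=
  Real.exp (2 * W (Om g) X) * (1 - g X) - (1 + g (-X))

lemma Gauge.iff (h : Gauge g) {X : ℝ × ℝ} (hX : X ∈ Om g) :
    dd (Om g) 0 X = W (Om g) X ↔ RR g X = 0 := by
  have hX' : g X < 1 := hX
  have p1 := h.nonneg (-X)
  have p2 : 0 < 1 - g X := by linarith
  rw [h.dd0 hX, RR, sub_eq_zero, ← eq_div_iff p2.ne']
  constructor
  · intro e
    rw [← e, show 2 * (1 / 2 * Real.log ((1 + g (-X)) / (1 - g X))) =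
      Real.log ((1 + g (-X)) / (1 - g X)) by ring, Real.exp_log (by positivity)]
  · intro e
    rw [← e, Real.log_exp]; ring

lemma Gauge.h0 (h : Gauge g) : ((4 / 5, 0) : ℝ × ℝ) ∈ Om g := by
  have := h.hi (4 / 5, 0)
  rw [nn_eq (r := 4 / 5) (by norm_num) (by norm_num)] at this
  show g _ < 1
  linarith

lemma dot_ray (α : V) (u : ℝ × ℝ) (r z : ℝ) :
    dot α (r • u, z) = z * dot α (0, 1) + r * dot α (u, 0) := by
  simp [dot]; ring

lemma Gauge.uniq (h : Gauge g) {u : ℝ × ℝ} (hu : u ≠ 0) {r r' : ℝ} (hr : 0 ≤ r) (hrr : r < r')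
    (hX : r' • u ∈ Om g) (hR : RR g (r • u) ≤ 0) : RR g (r' • u) < 0 := by
  have gp : 0 < g u := lt_of_lt_of_le (nn_pos hu) (h.lo u)
  have gm := h.nonneg (-u)
  have hX' : r' * g u < 1 := by rw [← h.hom _ _ (by linarith)]; exact hX
  have hY : r • u ∈ Om g := by
    show g _ < 1
    rw [h.hom _ _ hr]; nlinarith
  have hC := h.cone_ok
  obtain ⟨α, β, μ, hp, k1⟩ := strongW hC h.h0 hX
  have k2 := weak hC h.h0 hY hp
  by_contra hc
  push Not at hc
  unfold RR at hR hc
  rw [← smul_neg, h.hom _ _ hr, h.hom _ _ hr] at hR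
  rw [← smul_neg, h.hom _ _ (by linarith), h.hom _ _ (by linarith)] at hc
  have O : ((0, 1) : V) ∈ cone (Om g) := by rw [h.mem]; simp [h.zero]
  have a0 := hp.1 _ O
  have b0 := hp.2.1 _ O
  have a1 := h.closed hp.1 (le_refl (g ((-1 : ℝ) • u)))
  have b1 := h.closed hp.2.1 (le_refl (g ((1 : ℝ) • u)))
  have a2 := hp.1 _ ((mem_cone _).2 hX)
  have b2 := hp.2.1 _ ((mem_cone _).2 hX)
  have a3 := hp.1 _ ((mem_cone _).2 hY)
  have b3 := hp.2.1 _ ((mem_cone _).2 hY)
  have q0 := hp.2.2 (0, 1)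
  have q1 := hp.2.2 (u, 0)
  rw [dot_ray] at k1 k1 k2 k2 a1 b1 a2 b2 a3 b3
  rw [neg_one_smul] at a1
  rw [one_smul] at b1
  rw [dot_BB] at q0
  simp only [Prod.fst_zero] at q0
  generalize dot α (0, 1) = A at *
  generalize dot β (0, 1) = B at *
  generalize dot α (u, 0) = a at *
  generalize dot β (u, 0) = b at *
  generalize Real.exp (2 * W (Om g) (r • u)) = E at *
  generalize Real.exp (2 * W (Om g) (r' • u)) = E' at *
  generalize g u = p at *
  generalize g (-u) = m at *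
  have p1 : 0 < 1 - r * p := by nlinarith
  have p2 : 0 < 1 - r' * p := by linarith
  have p3 : 0 < 1 + r * m := by positivity
  have p4 : 0 < 1 + r' * m := by nlinarith
  have s1 : (A + r * a) * (1 - r * p) ≤ (B + r * b) * (1 + r * m) := by nlinarith
  have s2 : (B + r' * b) * (1 + r' * m) ≤ (A + r' * a) * (1 - r' * p) := by nlinarith
  have d1 : (A + r' * a) * (1 + r * m) = (A + r * a) * (1 + r' * m) - (r' - r) * (m * A - a) := by
    ring
  have d2 : (1 - r' * p) * (B + r * b) = (1 - r * p) * (B + r' * b) - (r' - r) * (p * B + b) := by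
    ring
  have n1 : 0 ≤ (r' - r) * (m * A - a) := mul_nonneg (by linarith) (by linarith)
  have n2 : 0 ≤ (r' - r) * (p * B + b) := mul_nonneg (by linarith) (by linarith)
  have t1 : (A + r * a) * (1 - r * p) * ((B + r' * b) * (1 + r' * m)) ≤
      (B + r * b) * (1 + r * m) * ((A + r' * a) * (1 - r' * p)) :=
    mul_le_mul s1 s2 (by nlinarith) (by nlinarith)
  have t2 : (B + r * b) * (1 + r * m) * ((A + r' * a) * (1 - r' * p)) =
      ((A + r * a) * (1 + r' * m) - (r' - r) * (m * A - a)) *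
        ((1 - r * p) * (B + r' * b) - (r' - r) * (p * B + b)) := by
    rw [← d1, ← d2]; ring
  have P1 : 0 < (A + r * a) * (1 + r' * m) := mul_pos (by linarith) p4
  have P2 : 0 < (1 - r * p) * (B + r' * b) := mul_pos p1 (by linarith)
  have P3 : 0 < (1 - r' * p) * (B + r * b) := mul_pos p2 (by linarith)
  rw [t2] at t1
  rw [d2] at P3
  have t3 : (A + r * a) * (1 - r * p) * ((B + r' * b) * (1 + r' * m)) =
      ((A + r * a) * (1 + r' * m)) * ((1 - r * p) * (B + r' * b)) := by ring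
  rw [t3] at t1
  generalize (A + r * a) * (1 + r' * m) = U at t1 P1
  generalize (1 - r * p) * (B + r' * b) = U' at t1 P2 P3
  have z1 : (r' - r) * (m * A - a) = 0 := by
    apply le_antisymm _ n1
    by_contra hh
    push Not at hh
    nlinarith [mul_pos hh P3, mul_nonneg P1.le n2]
  have z2 : (r' - r) * (p * B + b) = 0 := by
    rw [z1] at t1
    apply le_antisymm _ n2
    by_contra hh
    push Not at hh
    nlinarith [mul_pos hh P1]
  have y1 : a = m * A := by
    rcases mul_eq_zero.1 z1 with h | h <;> linarith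
  have y2 : b = -(p * B) := by
    rcases mul_eq_zero.1 z2 with h | h <;> linarith
  have w1 : A ≤ B := by
    rw [y1, y2] at s1
    have : A * ((1 + r * m) * (1 - r * p)) ≤ B * ((1 + r * m) * (1 - r * p)) := by linarith
    exact le_of_mul_le_mul_right this (mul_pos p3 p1)
  have w2 : B ≤ A := by
    rw [y1, y2] at s2
    have : B * ((1 + r' * m) * (1 - r' * p)) ≤ A * ((1 + r' * m) * (1 - r' * p)) := by linarith
    exact le_of_mul_le_mul_right this (mul_pos p4 p2)
  have μ0 : μ = 0 := by linarith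
  rw [μ0] at q1
  nlinarith [mul_pos gp b0, mul_nonneg gm a0.le]

end Pool.Agent.H.MP_3498ef_gt
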