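import Pool.Agent.H.MP_3498ef_gt.B

set_option autoImplicit false

namespace Pool.Agent.H.MP_3498ef_gt

open Filter Topology Set Pool.Agent.H.MP_2655df_gt

noncomputable def Dt (η t : ℝ) : ℝ := 3 + t ^ 2 / 2 + (η * (2 - t) - (2 + t)) ^ 2 / (4 * η)
noncomputable def D1 (η t : ℝ) : ℝ := t - (η + 1) * (η * (2 - t) - (2 + t)) / (2 * η)
noncomputable def D2 (η : ℝ) : ℝ := 1 / 2 + (η + 1) ^ 2 / (4 * η)
noncomputable def Ut (k t : ℝ) : ℝ := (1 + k) * ((1 + t ^ 2) * (3 + t ^ 2 / 2))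
noncomputable def G0 (η k t : ℝ) : ℝ := Ut k t / Dt η t
noncomputable def G1 (η k t : ℝ) : ℝ := ((1 + k) * (7 * t + 2 * t ^ 3) - G0 η k t * D1 η t) / Dt η t
noncomputable def G2 (η k t : ℝ) : ℝ := (9 / 4 - G0 η k t + G1 η k t * t) / (1 + t ^ 2)
noncomputable def SS (η k t s : ℝ) : ℝ :=
  (1 + k) * (7 / 2 + 3 * t ^ 2) - G0 η k t * D2 η - G1 η k t * D1 η t - G2 η k t * Dt η t
    + (s - t) * ((1 + k) * (2 * t) - G1 η k t * D2 η - G2 η k t * D1 η t)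
    + (s - t) ^ 2 * ((1 + k) / 2 - G2 η k t * D2 η)
noncomputable def BM (η k t : ℝ) : ℝ :=
  (η + η⁻¹) / 2 * (1 + 9 * t ^ 2) / 3 - 2 * t * ((η - η⁻¹) / 2) - k * (9 * t ^ 2 - 1) / 3

lemma Dt_pos {η : ℝ} (h : 0 < η) (t : ℝ) : 0 < Dt η t := by unfold Dt; positivity

def Good (δ : ℝ) : Prop := 0 < δ ∧ δ ≤ 1 / 30 ∧ ∀ η k t s : ℝ, |η - 2| ≤ δ → |k - 1| ≤ δ →
  |t - 2 / 3| ≤ δ → |s - 2 / 3| ≤ δ → 0 < SS η k t s ∧ 0 < BM η k t

lemma ex_good : ∃ δ, Good δ := by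
  let b : ℝ × ℝ × ℝ × ℝ := (2, 1, 2 / 3, 2 / 3)
  have c0 : ContinuousAt (fun p : ℝ × ℝ × ℝ × ℝ => Dt p.1 p.2.2.1) b := by
    unfold Dt; fun_prop (disch := norm_num [b])
  have c1 : ContinuousAt (fun p : ℝ × ℝ × ℝ × ℝ => D1 p.1 p.2.2.1) b := by
    unfold D1; fun_prop (disch := norm_num [b])
  have c2 : ContinuousAt (fun p : ℝ × ℝ × ℝ × ℝ => D2 p.1) b := by
    unfold D2; fun_prop (disch := norm_num [b])
  have n0 : Dt b.1 b.2.2.1 ≠ 0 := (Dt_pos (by norm_num [b]) _).ne'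
  have c3 : ContinuousAt (fun p : ℝ × ℝ × ℝ × ℝ => G0 p.1 p.2.1 p.2.2.1) b := by
    unfold G0 Ut
    exact ContinuousAt.div (by fun_prop) c0 n0
  have c4 : ContinuousAt (fun p : ℝ × ℝ × ℝ × ℝ => G1 p.1 p.2.1 p.2.2.1) b := by
    unfold G1
    exact ContinuousAt.div (ContinuousAt.sub (by fun_prop) (c3.mul c1)) c0 n0
  have c5 : ContinuousAt (fun p : ℝ × ℝ × ℝ × ℝ => G2 p.1 p.2.1 p.2.2.1) b := by
    unfold G2
    exact ContinuousAt.div ((continuousAt_const.sub c3).add (c4.mul (by fun_prop))) (by fun_prop)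
      (by norm_num [b])
  have c6 : ContinuousAt (fun p : ℝ × ℝ × ℝ × ℝ => SS p.1 p.2.1 p.2.2.1 p.2.2.2) b := by
    unfold SS
    refine ContinuousAt.add (ContinuousAt.add ?_ ?_) ?_
    · exact ((ContinuousAt.sub (by fun_prop) (c3.mul c2)).sub (c4.mul c1)).sub (c5.mul c0)
    · exact ContinuousAt.mul (by fun_prop)
        ((ContinuousAt.sub (by fun_prop) (c4.mul c2)).sub (c5.mul c1))
    · exact ContinuousAt.mul (by fun_prop) (ContinuousAt.sub (by fun_prop) (c5.mul c2))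
  have c7 : ContinuousAt (fun p : ℝ × ℝ × ℝ × ℝ => BM p.1 p.2.1 p.2.2.1) b := by
    unfold BM; fun_prop (disch := norm_num [b])
  have v6 : 0 < SS b.1 b.2.1 b.2.2.1 b.2.2.2 := by
    norm_num [b, SS, G2, G1, G0, Ut, D2, D1, Dt]
  have v7 : 0 < BM b.1 b.2.1 b.2.2.1 := by norm_num [b, BM]
  have e := (c6.eventually (lt_mem_nhds v6)).and (c7.eventually (lt_mem_nhds v7))
  obtain ⟨ε, hε, h⟩ := Metric.eventually_nhds_iff.1 e
  refine ⟨min (ε / 2) (1 / 30), by positivity, min_le_right _ _, fun η k t s h1 h2 h3 h4 => ?_⟩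
  have hm := min_le_left (ε / 2) (1 / 30)
  apply h (y := (η, k, t, s))
  simp only [Prod.dist_eq, Real.dist_eq, max_lt_iff, b]
  refine ⟨?_, ?_, ?_, ?_⟩ <;> linarith

lemma tangent {δ η k t : ℝ} (h : Good δ) (h1 : |η - 2| ≤ δ) (h2 : |k - 1| ≤ δ)
    (h3 : |t - 2 / 3| ≤ δ) : ∃ z0 z1 z2 : ℝ, z0 + z2 = 9 / 4 ∧ z0 + z1 * t + z2 * t ^ 2 = G0 η k t ∧
      ∀ s, |s - 2 / 3| ≤ δ → z0 + z1 * s + z2 * s ^ 2 ≤ G0 η k s := by
  have hη : 0 < η := by have := (abs_le.1 h1).1; linarith [h.2.1]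
  have d0 := Dt_pos hη t
  have e0 : G0 η k t * Dt η t = Ut k t := by unfold G0; field_simp
  have e1 : G1 η k t * Dt η t = (1 + k) * (7 * t + 2 * t ^ 3) - G0 η k t * D1 η t := by
    unfold G1; field_simp
  have e2 : G2 η k t * (1 + t ^ 2) = 9 / 4 - G0 η k t + G1 η k t * t := by
    unfold G2; field_simp
  refine ⟨G0 η k t - G1 η k t * t + G2 η k t * t ^ 2, G1 η k t - 2 * G2 η k t * t, G2 η k t,
    by linarith, by ring, fun s hs => ?_⟩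
  have hS := (h.2.2 η k t s h1 h2 h3 hs).1
  have e3 : Dt η s = Dt η t + D1 η t * (s - t) + D2 η * (s - t) ^ 2 := by
    unfold Dt D1 D2; field_simp; ring
  rw [show G0 η k s = Ut k s / Dt η s from rfl, le_div_iff₀ (Dt_pos hη s), e3]
  have e4 : Ut k s - (G0 η k t - G1 η k t * t + G2 η k t * t ^ 2 + (G1 η k t - 2 * G2 η k t * t) * s
      + G2 η k t * s ^ 2) * (Dt η t + D1 η t * (s - t) + D2 η * (s - t) ^ 2) =
      (s - t) ^ 2 * SS η k t s := by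
    unfold SS
    unfold Ut at e0 ⊢
    linear_combination (-1 : ℝ) * e0 - (s - t) * e1
  nlinarith [mul_nonneg (sq_nonneg (s - t)) hS.le]

lemma quad_out {a b c ta tb t1 : ℝ} (h1 : 0 ≤ a + b * ta + c * ta ^ 2)
    (h2 : 0 ≤ a + b * tb + c * tb ^ 2) (h3 : a + b * t1 + c * t1 ^ 2 < 0) (k1 : ta ≤ t1)
    (k2 : t1 ≤ tb) : 0 < c ∧ ∀ t, (t < ta ∨ tb < t) → 0 ≤ a + b * t + c * t ^ 2 := by
  have j1 : ta < t1 := lt_of_le_of_ne k1 (by rintro rfl; linarith)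
  have j2 : t1 < tb := lt_of_le_of_ne k2 (by rintro rfl; linarith)
  have hc : 0 < c := by
    have e : (tb - ta) * (a + b * t1 + c * t1 ^ 2) = (tb - t1) * (a + b * ta + c * ta ^ 2)
        + (t1 - ta) * (a + b * tb + c * tb ^ 2) - c * ((t1 - ta) * (tb - t1) * (tb - ta)) := by ring
    have p1 : 0 < (t1 - ta) * (tb - t1) * (tb - ta) :=
      mul_pos (mul_pos (by linarith) (by linarith)) (by linarith)
    by_contra hc
    push Not at hc
    nlinarith [mul_nonneg (sub_pos.2 j2).le h1, mul_nonneg (sub_pos.2 j1).le h2,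
      mul_pos (sub_pos.2 (j1.trans j2)) (neg_pos.2 h3), mul_nonneg (neg_nonneg.2 hc) p1.le]
  refine ⟨hc, fun t ht => ?_⟩
  rcases ht with ht | ht
  · have e : (t1 - ta) * (a + b * t + c * t ^ 2) = (t1 - t) * (a + b * ta + c * ta ^ 2)
        - (ta - t) * (a + b * t1 + c * t1 ^ 2) + c * ((t1 - ta) * (ta - t) * (t1 - t)) := by ring
    have p1 : 0 < (t1 - ta) * (ta - t) * (t1 - t) :=
      mul_pos (mul_pos (by linarith) (by linarith)) (by linarith)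
    have : 0 ≤ (t1 - ta) * (a + b * t + c * t ^ 2) := by
      nlinarith [mul_nonneg (sub_pos.2 (ht.trans j1)).le h1, mul_pos (sub_pos.2 ht) (neg_pos.2 h3),
        mul_pos hc p1]
    exact nonneg_of_mul_nonneg_right this (sub_pos.2 j1)
  · have e : (tb - t1) * (a + b * t + c * t ^ 2) = (t - t1) * (a + b * tb + c * tb ^ 2)
        - (t - tb) * (a + b * t1 + c * t1 ^ 2) + c * ((tb - t1) * (t - tb) * (t - t1)) := by ring
    have p1 : 0 < (tb - t1) * (t - tb) * (t - t1) :=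
      mul_pos (mul_pos (by linarith) (by linarith)) (by linarith)
    have : 0 ≤ (tb - t1) * (a + b * t + c * t ^ 2) := by
      nlinarith [mul_nonneg (sub_pos.2 (j2.trans ht)).le h2, mul_pos (sub_pos.2 ht) (neg_pos.2 h3),
        mul_pos hc p1]
    exact nonneg_of_mul_nonneg_right this (sub_pos.2 j2)

lemma mg0 {η k t : ℝ} (hη : 0 < η)
    (h : (k - 1) * (3 + t ^ 2 / 2) * (2 * η) ≤ (η * (2 - t) - (2 + t)) ^ 2) :
    G0 η k t ≤ 2 * (1 + t ^ 2) := by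
  rw [show G0 η k t = Ut k t / Dt η t from rfl, div_le_iff₀ (Dt_pos hη t)]
  unfold Ut Dt
  have : (k - 1) * (3 + t ^ 2 / 2) ≤ 2 * ((η * (2 - t) - (2 + t)) ^ 2 / (4 * η)) := by
    rw [← mul_div_assoc, le_div_iff₀ (by positivity)]; linarith
  nlinarith [mul_le_mul_of_nonneg_left this (show 0 ≤ 1 + t ^ 2 by positivity)]

lemma mg1 {δ η k t : ℝ} (h0 : 0 < δ) (h1 : δ ≤ 1 / 30) (h2 : |η - 2| ≤ δ / 3)
    (h3 : k ≤ 1 + δ ^ 2 / 50) (h4 : δ ≤ |t - 2 / 3|) (h5 : t ^ 2 ≤ 1) :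
    G0 η k t ≤ 2 * (1 + t ^ 2) := by
  obtain ⟨a1, a2⟩ := abs_le.1 h2
  have t1 : -1 ≤ t := by nlinarith
  have t2 : t ≤ 1 := by nlinarith
  apply mg0 (by linarith)
  have b1 : |(η - 2) * (2 - t)| ≤ δ := by
    rw [abs_mul, abs_of_nonneg (show 0 ≤ 2 - t by linarith)]
    nlinarith [abs_nonneg (η - 2)]
  obtain ⟨b2, b3⟩ := abs_le.1 b1
  have b4 : (2 * δ) ^ 2 ≤ (η * (2 - t) - (2 + t)) ^ 2 := by
    rcases le_abs.1 h4 with h | h
    · nlinarith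
    · nlinarith
  have b5 : (3 + t ^ 2 / 2) * (2 * η) ≤ 16 := by nlinarith
  have b6 : 0 ≤ (3 + t ^ 2 / 2) * (2 * η) := by nlinarith
  nlinarith [sq_nonneg δ]

lemma mg2 {η k t : ℝ} (h2 : 14 / 5 ≤ η) (h2' : η ≤ 4) (h3 : k ≤ 1 + 1 / 1000) (h5 : t ^ 2 < 2 / 3) :
    G0 η k t ≤ 2 * (1 + t ^ 2) := by
  have t2 : t ≤ 82 / 100 := by nlinarith
  apply mg0 (by linarith)
  have b4 : 48 / 100 ≤ η * (2 - t) - (2 + t) := by nlinarith
  have b5 : (3 + t ^ 2 / 2) * (2 * η) ≤ 28 := by nlinarith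
  have b6 : 0 ≤ (3 + t ^ 2 / 2) * (2 * η) := by nlinarith
  nlinarith

lemma mg3 {η k t : ℝ} (hη : 0 < η) (hk : 0 ≤ 1 + k) : G0 η k t ≤ (1 + k) * (1 + t ^ 2) := by
  rw [show G0 η k t = Ut k t / Dt η t from rfl, div_le_iff₀ (Dt_pos hη t)]
  unfold Ut Dt
  have : 0 ≤ (1 + k) * (1 + t ^ 2) * ((η * (2 - t) - (2 + t)) ^ 2 / (4 * η)) := by positivity
  nlinarith

noncomputable def pt (r t : ℝ) : ℝ × ℝ := (r * (1 - t ^ 2), r * (2 * t))

lemma nn_pt {r : ℝ} (hr : 0 ≤ r) (t : ℝ) : nn (pt r t) = r * (1 + t ^ 2) :=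
  nn_eq (by positivity) (by simp [pt]; ring)

lemma param (u : ℝ × ℝ) : (∃ r t, 0 < r ∧ u = pt r t) ∨ (u.2 = 0 ∧ nn u = -u.1) := by
  have h1 := nn_sq u
  have h2 := (abs_le.1 (abs1 u)).1
  rcases (show 0 ≤ nn u + u.1 by linarith).eq_or_lt with h | h
  · right
    have : nn u = -u.1 := by linarith
    rw [this] at h1
    exact ⟨by nlinarith, this⟩
  · left
    refine ⟨(nn u + u.1) / 2, u.2 / (nn u + u.1), by linarith, ?_⟩
    ext
    · simp only [pt]; field_simp; nlinarith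
    · simp only [pt]; field_simp

lemma pt_inj {r t r' t' : ℝ} (hr : 0 < r) (hr' : 0 < r') (h : pt r t = pt r' t') :
    r = r' ∧ t = t' := by
  have h0 := nn_pt hr.le t
  rw [h, nn_pt hr'.le] at h0
  simp only [pt, Prod.mk.injEq] at h
  have e : r = r' := by linarith [h.1]
  subst e
  exact ⟨rfl, by have := mul_left_cancel₀ hr.ne' h.2; linarith⟩

end Pool.Agent.H.MP_3498ef_gt
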