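import Pool.Agent.H.MP_3498ef_gt.C

set_option autoImplicit false

namespace Pool.Agent.H.MP_3498ef_gt

open Filter Topology Set Pool.Agent.H.MP_2655df_gt

noncomputable def ch (η : ℝ) : ℝ := (η + η⁻¹) / 2
noncomputable def sh (η : ℝ) : ℝ := (η - η⁻¹) / 2
noncomputable def bet (η k : ℝ) : V := ((-(4 / 3) * ch η + 5 / 3 * k, - sh η), 5 / 3 * ch η - 4 / 3 * k)

lemma dot_bet (η k : ℝ) (v : V) : dot (bet η k) v =
    ch η * (5 * v.2 - 4 * v.1.1) / 3 - sh η * v.1.2 - k * ((4 * v.2 - 5 * v.1.1) / 3) := by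
  simp [dot, bet]; ring

lemma ch_sq {η : ℝ} (h : 0 < η) : ch η ^ 2 = 1 + sh η ^ 2 := by
  unfold ch sh; field_simp; ring

lemma ch_ge {η : ℝ} (h : 0 < η) : 1 ≤ ch η := by
  have h1 : 0 < ch η := by unfold ch; positivity
  nlinarith [ch_sq h, sq_nonneg (sh η)]

def inS (δ : ℝ) (u : ℝ × ℝ) : Prop := ∃ r t, 0 < r ∧ |t - 2 / 3| ≤ δ ∧ u = pt r t

noncomputable def cut (δ : ℝ) (w : ℝ × ℝ) : ℝ := nn w / 2 + (1 / 2 + δ ^ 2 / 250) * w.2

noncomputable def base (δ : ℝ) (w : ℝ × ℝ) : ℝ := max (nn w) (cut δ w)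

def KK (δ η k : ℝ) : Prop := |η - 2| ≤ δ / 3 ∧ 1 ≤ k ∧ k ≤ 1 + δ ^ 2 / 50 ∧
  ∀ w, ¬ inS δ w → 0 ≤ dot (bet η k) (w, base δ w)

def Up (δ : ℝ) (w : ℝ × ℝ) (b : ℝ) : Prop := base δ w ≤ b ∧ ∀ r t η k, 0 < r → |t - 2 / 3| ≤ δ →
  w = pt r t → KK δ η k → r * (G0 η k t - (1 + t ^ 2)) ≤ b

def ZZ (δ : ℝ) : Set (ℝ × ℝ) := {Z | ∀ w b, Up δ w b → Z.1 * w.1 + Z.2 * w.2 + nn w / 8 ≤ b}

noncomputable def gg (δ : ℝ) (u : ℝ × ℝ) : ℝ :=
  nn u / 8 + sSup ((fun Z : ℝ × ℝ => Z.1 * u.1 + Z.2 * u.2) '' ZZ δ)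

variable {δ : ℝ}

lemma base_le (w : ℝ × ℝ) : base δ w ≤ (1 + δ ^ 2 / 250) * nn w := by
  have := (abs_le.1 (abs2 w)).2
  have := nn_nonneg w
  unfold base cut
  rw [max_le_iff]
  constructor <;> nlinarith [sq_nonneg δ]

lemma KK.pos {η k : ℝ} (h : Good δ) (hK : KK δ η k) : 0 < η := by
  have := (abs_le.1 hK.1).1; linarith [h.2.1]

lemma up_hi (h : Good δ) (w : ℝ × ℝ) : Up δ w ((1 + δ ^ 2 / 50) * nn w) := by
  refine ⟨le_trans (base_le w) (by nlinarith [sq_nonneg δ, nn_nonneg w]), ?_⟩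
  rintro r t η k hr ht rfl hK
  rw [nn_pt hr.le]
  have k1 := mg3 (t := t) (k := k) (hK.pos h) (by linarith [hK.2.1])
  have k2 : k * (1 + t ^ 2) ≤ (1 + δ ^ 2 / 50) * (1 + t ^ 2) :=
    mul_le_mul_of_nonneg_right hK.2.2.1 (by positivity)
  nlinarith

lemma up_out {w : ℝ × ℝ} (h : ¬ inS δ w) : Up δ w (base δ w) :=
  ⟨le_rfl, fun r t _ _ hr ht e _ => absurd ⟨r, t, hr, ht, e⟩ h⟩

lemma z_one {e : ℝ × ℝ} (he : nn e ≤ 1) : (7 / 8 : ℝ) • e ∈ ZZ δ := by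
  intro w b hb
  have k1 := cs e w
  have k2 : nn w ≤ b := le_trans (le_max_left _ _) hb.1
  have := nn_nonneg w
  simp only [Prod.smul_fst, Prod.smul_snd, smul_eq_mul]
  nlinarith

lemma z_cut {e : ℝ × ℝ} (he : nn e ≤ 1) :
    (3 / 8 : ℝ) • e + (0, 1 / 2 + δ ^ 2 / 250) ∈ ZZ δ := by
  intro w b hb
  have k1 := cs e w
  have k2 : cut δ w ≤ b := le_trans (le_max_right _ _) hb.1
  have := nn_nonneg w
  unfold cut at k2
  simp only [Prod.smul_fst, Prod.smul_snd, smul_eq_mul, Prod.fst_add, Prod.snd_add]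
  nlinarith

lemma ex_unit (u : ℝ × ℝ) : ∃ e : ℝ × ℝ, nn e ≤ 1 ∧ e.1 * u.1 + e.2 * u.2 = nn u := by
  by_cases hu : u = 0
  · exact ⟨0, by simp [nn], by simp [hu, nn]⟩
  have p := nn_pos hu
  refine ⟨(nn u)⁻¹ • u, by rw [nn_smul _ (inv_pos.2 p).le, inv_mul_cancel₀ p.ne'], ?_⟩
  simp only [Prod.smul_fst, Prod.smul_snd, smul_eq_mul]
  field_simp
  rw [nn_sq]

lemma le_gg (h : Good δ) {Z : ℝ × ℝ} (hZ : Z ∈ ZZ δ) (u : ℝ × ℝ) :
    Z.1 * u.1 + Z.2 * u.2 + nn u / 8 ≤ gg δ u := by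
  have : Z.1 * u.1 + Z.2 * u.2 ≤ sSup ((fun Z : ℝ × ℝ => Z.1 * u.1 + Z.2 * u.2) '' ZZ δ) := by
    refine le_csSup ⟨(1 + δ ^ 2 / 50) * nn u - nn u / 8, ?_⟩ ⟨Z, hZ, rfl⟩
    rintro _ ⟨Y, hY, rfl⟩
    have := hY u _ (up_hi h u)
    simp only; linarith
  unfold gg; linarith

lemma gg_le' {u : ℝ × ℝ} {b : ℝ} (h : ∀ Z ∈ ZZ δ, Z.1 * u.1 + Z.2 * u.2 + nn u / 8 ≤ b) :
    gg δ u ≤ b := by
  have : sSup ((fun Z : ℝ × ℝ => Z.1 * u.1 + Z.2 * u.2) '' ZZ δ) ≤ b - nn u / 8 := by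
    refine csSup_le ⟨_, _, z_one (e := 0) (by simp [nn]), rfl⟩ ?_
    rintro _ ⟨Y, hY, rfl⟩
    have := h Y hY
    simp only; linarith
  unfold gg; linarith

lemma gg_le {u : ℝ × ℝ} {b : ℝ} (h : Up δ u b) : gg δ u ≤ b := gg_le' fun _ hZ => hZ u b h

lemma gg_lo (h : Good δ) (u : ℝ × ℝ) : nn u ≤ gg δ u := by
  obtain ⟨e, h1, h2⟩ := ex_unit u
  have := le_gg h (z_one h1) u
  simp only [Prod.smul_fst, Prod.smul_snd, smul_eq_mul] at this
  linarith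

lemma gg_cut (h : Good δ) (u : ℝ × ℝ) : cut δ u ≤ gg δ u := by
  obtain ⟨e, h1, h2⟩ := ex_unit u
  have := le_gg h (z_cut h1) u
  simp only [Prod.smul_fst, Prod.smul_snd, smul_eq_mul, Prod.fst_add, Prod.snd_add] at this
  unfold cut
  linarith

lemma gg_hi (h : Good δ) (u : ℝ × ℝ) : gg δ u ≤ (1 + δ ^ 2 / 50) * nn u := gg_le (up_hi h u)

lemma gauge (h : Good δ) : Gauge (gg δ) := by
  have hs : ∀ u s, 0 ≤ s → gg δ (s • u) ≤ s * gg δ u := by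
    intro u s hs
    apply gg_le'
    intro Z hZ
    have := mul_le_mul_of_nonneg_left (le_gg h hZ u) hs
    rw [nn_smul _ hs]
    simp only [Prod.smul_fst, Prod.smul_snd, smul_eq_mul]
    linarith
  refine ⟨fun u s h0 => le_antisymm (hs u s h0) ?_, fun u v => ?_, gg_lo h, fun u => ?_⟩
  · rcases h0.eq_or_lt with h0 | h0
    · subst h0
      rw [zero_mul]; exact le_trans (nn_nonneg _) (gg_lo h _)
    · have := hs (s • u) s⁻¹ (inv_pos.2 h0).le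
      rw [smul_smul, inv_mul_cancel₀ h0.ne', one_smul, le_inv_mul_iff₀ h0] at this
      exact this
  · rw [sub_le_iff_le_add]
    apply gg_le'
    intro Z hZ
    have := le_gg h hZ u
    have := le_gg h hZ v
    simp only [Prod.fst_add, Prod.snd_add]
    linarith
  · have := gg_hi h u
    have := nn_nonneg u
    have h1 := h.1
    have h2 := h.2.1
    have : δ ^ 2 / 50 ≤ 1 / 8 := by nlinarith
    nlinarith

lemma gg_P (h : Good δ) {r t η k : ℝ} (hr : 0 < r) (ht : |t - 2 / 3| ≤ δ) (hK : KK δ η k) :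
    r * (G0 η k t - (1 + t ^ 2)) ≤ gg δ (pt r t) := by
  have h1 := h.1
  have h2 := h.2.1
  rcases le_or_gt (G0 η k t) (2 * (1 + t ^ 2)) with hc | hc
  · have := gg_lo h (pt r t)
    rw [nn_pt hr.le] at this
    nlinarith
  obtain ⟨z0, z1, z2, e1, e2, e3⟩ := tangent (η := η) (k := k) h (by linarith [hK.1])
    (by rw [abs_le]; constructor <;> nlinarith [hK.2.1, hK.2.2.1]) ht
  have ea : |(2 / 3 - δ) - 2 / 3| = δ := by
    rw [show (2 / 3 - δ) - 2 / 3 = -δ by ring, abs_neg, abs_of_pos h1]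
  have eb : |(2 / 3 + δ) - 2 / 3| = δ := by
    rw [show (2 / 3 + δ) - 2 / 3 = δ by ring, abs_of_pos h1]
  have ma := le_trans (e3 _ ea.le) (mg1 h1 h2 hK.1 hK.2.2.1 ea.ge (by nlinarith))
  have mb := le_trans (e3 _ eb.le) (mg1 h1 h2 hK.1 hK.2.2.1 eb.ge (by nlinarith))
  obtain ⟨q1, q2⟩ := quad_out (a := 2 - z0) (b := -z1) (c := 2 - z2) (ta := 2 / 3 - δ)
    (tb := 2 / 3 + δ) (t1 := t) (by linarith) (by linarith) (by linarith)
    (by linarith [(abs_le.1 ht).1]) (by linarith [(abs_le.1 ht).2])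
  have ev : ∀ ρ s : ℝ, 0 < ρ → (z0 - 9 / 8) * (pt ρ s).1 + z1 / 2 * (pt ρ s).2 + nn (pt ρ s) / 8 =
      ρ * (z0 + z1 * s + z2 * s ^ 2 - (1 + s ^ 2)) := by
    intro ρ s hρ
    rw [nn_pt hρ.le]
    simp only [pt]
    linear_combination (-(ρ * s ^ 2)) * e1
  have hZ : ((z0 - 9 / 8, z1 / 2) : ℝ × ℝ) ∈ ZZ δ := by
    intro w b hb
    have k2 : nn w ≤ b := le_trans (le_max_left _ _) hb.1
    rcases param w with ⟨ρ, s, hρ, rfl⟩ | ⟨w1, w2⟩
    · simp only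
      rw [ev ρ s hρ]
      by_cases hs : |s - 2 / 3| ≤ δ
      · have := hb.2 ρ s η k hρ hs rfl hK
        have := mul_le_mul_of_nonneg_left (e3 s hs) hρ.le
        linarith
      · have := q2 s (by
          rw [abs_le] at hs
          by_contra hh
          push Not at hh
          exact hs ⟨by linarith [hh.1], by linarith [hh.2]⟩)
        rw [nn_pt hρ.le] at k2
        nlinarith
    · have := nn_nonneg w
      simp only
      rw [w1]
      have : w.1 = - nn w := by linarith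
      rw [this]
      nlinarith
  have := le_gg h hZ (pt r t)
  simp only at this
  rw [ev r t hr, e2] at this
  exact this

lemma inS_pos (h : Good δ) {w : ℝ × ℝ} (hw : inS δ w) :
    nn w < 3 * w.1 ∧ 2 * w.1 < nn w ∧ 0 < w.2 := by
  obtain ⟨r, t, hr, ht, rfl⟩ := hw
  obtain ⟨t1, t2⟩ := abs_le.1 ht
  have h2 := h.2.1
  rw [nn_pt hr.le]
  simp only [pt]
  have a1 : t ^ 2 < 1 / 2 := by nlinarith
  have a2 : 1 / 3 < t ^ 2 := by nlinarith
  refine ⟨by nlinarith, by nlinarith, by nlinarith⟩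

lemma cut_le (h : Good δ) {w : ℝ × ℝ} (hw : nn w ≤ 10 * |w.1| ∨ w.2 ≤ 0) : cut δ w ≤ nn w := by
  have h1 := h.1
  have h2 := h.2.1
  have p := nn_nonneg w
  unfold cut
  rcases le_or_gt w.2 0 with h0 | h0
  · nlinarith [sq_nonneg δ]
  rcases hw with hw | hw
  · have s := nn_sq w
    have s2 : nn w ^ 2 ≤ (10 * |w.1|) ^ 2 := by gcongr
    rw [mul_pow, sq_abs] at s2
    have s3 : w.2 ≤ 995 / 1000 * nn w := by
      refine (abs_le_of_sq_le_sq' ?_ (by positivity)).2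
      nlinarith
    have : δ ^ 2 / 250 ≤ 1 / 1000 := by nlinarith
    nlinarith
  · linarith

lemma gg_eq (h : Good δ) {w : ℝ × ℝ} (h1 : ¬ inS δ w) (h2 : cut δ w ≤ nn w) : gg δ w = nn w := by
  apply le_antisymm _ (gg_lo h w)
  have := gg_le (up_out h1)
  rwa [base, max_eq_left h2] at this

lemma adm_disc (h : Good δ) {α : V} (h0 : 0 < α.2) (h1 : α.1.1 ^ 2 + α.1.2 ^ 2 ≤ α.2 ^ 2) :
    Adm (cone (Om (gg δ))) α := by
  intro v hv
  rw [(gauge h).mem] at hv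
  have k1 := gg_lo h v.1
  have k2 := cs (-α.1) v.1
  have k3 : nn (-α.1) ≤ α.2 := by
    rw [nn_neg]
    refine (abs_le_of_sq_le_sq' ?_ h0.le).2
    rw [nn_sq]; exact h1
  have := nn_nonneg v.1
  unfold dot
  simp only [Prod.fst_neg, Prod.snd_neg] at k2
  nlinarith

lemma adm_pm {η k : ℝ} (h : Good δ) (hη : 0 < η) (hk : k ^ 2 = 1) :
    Adm (cone (Om (gg δ))) (bet η k) := by
  have := ch_ge hη
  have := ch_sq hη
  have : k ≤ 1 := by nlinarith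
  apply adm_disc h <;> simp only [bet] <;> nlinarith

lemma adm_K {η k : ℝ} (h : Good δ) (hK : KK δ η k) : Adm (cone (Om (gg δ))) (bet η k) := by
  have h1 := h.1
  have h2 := h.2.1
  have c1 := ch_ge (hK.pos h)
  have k1 := hK.2.2.1
  have b0 : 0 < 5 / 3 * ch η - 4 / 3 * k := by nlinarith
  intro v hv
  rw [(gauge h).mem] at hv
  have key : ∃ z, z < v.2 ∧ 0 ≤ dot (bet η k) (v.1, z) := by
    by_cases hs : inS δ v.1
    · obtain ⟨r, t, hr, ht, e⟩ := hs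
      refine ⟨nn v.1, lt_of_le_of_lt (gg_lo h _) hv, ?_⟩
      have := (h.2.2 η k t t (by linarith [hK.1])
        (by rw [abs_le]; constructor <;> nlinarith [hK.2.1]) ht ht).2
      have e2 : dot (bet η k) (v.1, nn v.1) = r * BM η k t := by
        rw [dot_bet, e, nn_pt hr.le]
        simp only [pt, BM, ch, sh]; ring
      rw [e2]; positivity
    · exact ⟨base δ v.1, lt_of_le_of_lt (max_le (gg_lo h _) (gg_cut h _)) hv, hK.2.2.2 _ hs⟩
  obtain ⟨z, z1, z2⟩ := key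
  rw [dot_bet] at z2 ⊢
  simp only at z2
  nlinarith [mul_pos b0 (sub_pos.2 z1)]

end Pool.Agent.H.MP_3498ef_gt
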