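import Pool.Agent.H.MP_3498ef_gt.D

set_option autoImplicit false

namespace Pool.Agent.H.MP_3498ef_gt

open Filter Topology Set Pool.Agent.H.MP_2655df_gt

variable {δ : ℝ}

noncomputable def II (η : ℝ) : ℝ × ℝ := (4 / 3 * ch η - 5 / 3, sh η)
noncomputable def JJ (η : ℝ) : ℝ × ℝ := (4 / 3 * ch η + 5 / 3, sh η)

lemma nn_II {η : ℝ} (h : 0 < η) : nn (II η) = 5 / 3 * ch η - 4 / 3 :=
  nn_eq (by linarith [ch_ge h]) (by simp only [II]; nlinarith [ch_sq h])

lemma nn_JJ {η : ℝ} (h : 0 < η) : nn (JJ η) = 5 / 3 * ch η + 4 / 3 :=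
  nn_eq (by linarith [ch_ge h]) (by simp only [JJ]; nlinarith [ch_sq h])

lemma gg_far (h : Good δ) {w : ℝ × ℝ} (hw : nn w ≤ 2 * w.1) : gg δ w = nn w := by
  apply gg_eq h
  · intro hs; linarith [(inS_pos h hs).2.1]
  · apply cut_le h; left
    have := le_abs_self w.1
    have := abs_nonneg w.1
    linarith

lemma gg_JJ (h : Good δ) {η : ℝ} (hη : 0 < η) : gg δ (JJ η) = 5 / 3 * ch η + 4 / 3 := by
  rw [gg_far h, nn_JJ hη]
  rw [nn_JJ hη]; simp only [JJ]; linarith [ch_ge hη]

lemma Imod (h : Good δ) {η : ℝ} (hη : 0 < η) (hI : nn (II η) < gg δ (II η)) :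
    (|η - 2| ≤ δ / 3 ∧ ¬ inS δ (II η)) ∨ (14 / 5 ≤ η ∧ η ≤ 4) := by
  have h1 := h.1
  have h2 := h.2.1
  have c1 : 2 * η * ch η = η ^ 2 + 1 := by unfold ch; field_simp
  have c2 : 2 * η * sh η = η ^ 2 - 1 := by unfold sh; field_simp
  by_cases hs : inS δ (II η)
  · right
    obtain ⟨r, t, hr, ht, e⟩ := hs
    obtain ⟨t1, t2⟩ := abs_le.1 ht
    have e0 := nn_II hη
    rw [e, nn_pt hr.le] at e0
    simp only [II, pt, Prod.mk.injEq] at e
    have e1 : 2 * r = 3 * (ch η - 1) := by linarith [e.1]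
    have e2 : sh η = 3 * (ch η - 1) * t := by rw [← e1]; linarith [e.2]
    have e3 : (η - 1) * (η + 1 - 3 * (η - 1) * t) = 0 := by
      linear_combination (-1 : ℝ) * c2 + 2 * η * e2 + 3 * t * c1
    have e4 : η - 1 ≠ 0 := by
      intro h0
      have : η = 1 := by linarith
      rw [this] at e1; norm_num [ch] at e1; linarith
    have e5 := (mul_eq_zero.1 e3).resolve_left e4
    have e6 : 1 < η := by
      by_contra hh
      push Not at hh
      nlinarith
    constructor <;> nlinarith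
  · left
    refine ⟨?_, hs⟩
    have k : nn (II η) < cut δ (II η) := by
      by_contra hh
      push Not at hh
      rw [gg_eq h hs hh] at hI; exact lt_irrefl _ hI
    unfold cut at k
    rw [nn_II hη] at k
    simp only [II] at k
    have k2 : (η - 2) ^ 2 < 3 * (δ ^ 2 / 250) * (η ^ 2 - 1) := by nlinarith
    have d2 : δ ^ 2 ≤ 1 / 900 := by nlinarith
    have k3 : η < 3 := by
      by_contra hh
      push Not at hh
      nlinarith
    have k4 : (η - 2) ^ 2 ≤ (δ / 3) ^ 2 := by nlinarith [sq_nonneg δ]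
    exact abs_le.2 (abs_le_of_sq_le_sq' k4 (by positivity))

lemma star (h : Good δ) {η k r t : ℝ} (hη : 0 < η) (hA : Adm (cone (Om (gg δ))) (bet η k))
    (hr : 0 < r) (ht : t ^ 2 < 2 / 3) : r * (G0 η k t - (1 + t ^ 2)) ≤ gg δ (pt r t) := by
  have h1 := h.1
  have h2 := h.2.1
  have G := gauge h
  have easy : G0 η k t ≤ 2 * (1 + t ^ 2) → r * (G0 η k t - (1 + t ^ 2)) ≤ gg δ (pt r t) := by
    intro hc
    have := gg_lo h (pt r t)
    rw [nn_pt hr.le] at this
    nlinarith
  rcases le_or_gt k 1 with hk | hk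
  · apply easy
    apply mg0 hη
    have : 0 ≤ (1 - k) * (3 + t ^ 2 / 2) * (2 * η) := by
      have : 0 ≤ 1 - k := by linarith
      positivity
    nlinarith [sq_nonneg (η * (2 - t) - (2 + t))]
  have b0 := hA (0, 1) (by rw [G.mem]; simp [G.zero])
  have b1 := G.closed hA (le_refl (gg δ (II η)))
  have e1 : ∀ z, dot (bet η k) (II η, z) =
      1 - k + (z - nn (II η)) * (5 / 3 * ch η - 4 / 3 * k) := by
    intro z
    rw [dot_bet, nn_II hη]; simp only [II]
    linear_combination ch_sq hη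
  have e2 : dot (bet η k) (0, 1) = 5 / 3 * ch η - 4 / 3 * k := by rw [dot_bet]; simp; ring
  rw [e1] at b1
  rw [e2] at b0
  have hI : nn (II η) < gg δ (II η) := by
    by_contra hh
    push Not at hh
    nlinarith
  have bound : ∀ ε : ℝ, 0 ≤ ε → 1 ≤ η → η ≤ 4 → gg δ (II η) ≤ (1 + ε) * nn (II η) →
      k ≤ 1 + 5 * ε := by
    intro ε hε a1 a2 a3
    have c1 : 2 * η * ch η = η ^ 2 + 1 := by unfold ch; field_simp
    have c2 : ch η ≤ 17 / 8 := by
      by_contra hh
      push Not at hh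
      nlinarith
    have c3 := nn_II hη
    have c4 := nn_nonneg (II η)
    have c5 : (gg δ (II η) - nn (II η)) * (5 / 3 * ch η - 4 / 3 * k) ≤ ε * nn (II η) * nn (II η) :=
      mul_le_mul (by linarith) (by linarith) b0.le (by positivity)
    have c6 : nn (II η) * nn (II η) ≤ 5 := by nlinarith
    nlinarith
  rcases Imod h hη hI with ⟨a1, a2⟩ | ⟨a1, a2⟩
  · obtain ⟨a3, a4⟩ := abs_le.1 a1
    have k1 := bound (δ ^ 2 / 250) (by positivity) (by linarith) (by linarith)
      (le_trans (gg_le (up_out a2)) (base_le _))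
    have hK : KK δ η k := ⟨a1, hk.le, by linarith, fun w hw => G.closed hA (gg_le (up_out hw))⟩
    rcases le_or_gt |t - 2 / 3| δ with hc | hc
    · exact gg_P h hr hc hK
    · exact easy (mg1 h1 h2 a1 hK.2.2.1 hc.le (by linarith))
  · have k1 := bound (δ ^ 2 / 50) (by positivity) (by linarith) a2 (gg_hi h _)
    exact easy (mg2 a1 a2 (by nlinarith) ht)

lemma bet_pt {η k r t : ℝ} (hη : 0 < η) (hq : r * (2 - t ^ 2 / 2) = 1) :
    dot (bet η k) (pt r t, 1) = r * (Dt η t - (1 + k) * (1 + t ^ 2)) := by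
  rw [dot_bet]
  simp only [pt]
  have : Dt η t = ch η * (2 + t ^ 2 / 2) - 2 * t * sh η + (1 + t ^ 2) := by
    unfold Dt ch sh; field_simp; ring
  rw [this]
  linear_combination (-(5 / 3 * ch η - 4 / 3 * k)) * hq

lemma G0_id {η k t : ℝ} (hη : 0 < η) :
    (3 + t ^ 2 / 2 - G0 η k t) * Dt η t = (3 + t ^ 2 / 2) * (Dt η t - (1 + k) * (1 + t ^ 2)) := by
  have := Dt_pos hη t
  unfold G0 Ut; field_simp

lemma pair_bet {η k : ℝ} (h : Good δ) (hη : 0 < η) (hA : Adm (cone (Om (gg δ))) (bet η k)) :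
    Pair (cone (Om (gg δ))) (bet η (-1)) (bet η k) (1 + k) :=
  ⟨adm_pm h hη (by norm_num), hA, fun v => by rw [dot_bet, dot_bet, dot_BB]; ring⟩

lemma classify (h : Good δ) {α β : V} {μ r t : ℝ} (hp : Pair (cone (Om (gg δ))) α β μ)
    (hr : 0 < r) (ht : t ^ 2 < 2 / 3) (hq : r * (2 - t ^ 2 / 2) = 1) (hX : gg δ (pt r t) < 1) :
    dot α (pt r t, 1) * (1 - gg δ (pt r t)) ≤ dot β (pt r t, 1) * (r * (3 + t ^ 2 / 2)) := by
  have G := gauge h
  have hX' : ((pt r t, 1) : V) ∈ cone (Om (gg δ)) := (mem_cone _).2 hX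
  have pa := hp.1 _ hX'
  have pb := hp.2.1 _ hX'
  have g0 := G.nonneg (pt r t)
  have eB : dot BB (pt r t, 1) = r * (1 + t ^ 2) := by
    rw [dot_BB]; simp only [pt]; linear_combination (-4 / 3) * hq
  have eα := hp.2.2 (pt r t, 1)
  rw [eB] at eα
  have pn : 0 < r * (1 + t ^ 2) := by positivity
  rcases le_or_gt μ 0 with hμ | hμ
  · have : 1 ≤ r * (3 + t ^ 2 / 2) := by nlinarith
    nlinarith [mul_nonneg pa.le g0, mul_nonneg (neg_nonneg.2 hμ) pn.le]
  obtain ⟨Ch, Sh, k, eβ⟩ : ∃ Ch Sh k : ℝ, ∀ v : V, dot β v =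
      Ch * (5 * v.2 - 4 * v.1.1) / 3 - Sh * v.1.2 - k * ((4 * v.2 - 5 * v.1.1) / 3) :=
    ⟨(5 * β.2 + 4 * β.1.1) / 3, -β.1.2, (4 * β.2 + 5 * β.1.1) / 3, fun v => by unfold dot; ring⟩
  have en : ∀ y : ℝ, y ^ 2 = 9 / 25 → 0 ≤ 3 / 5 * Ch - Sh * y := by
    intro y hy
    have n1 : nn (4 / 5, y) = 1 := nn_eq (by norm_num) (by simp only; linarith)
    have := G.closed hp.2.1 (w := (4 / 5, y)) (z := 1) (by
      rw [gg_far h (by rw [n1]; norm_num), n1])
    rw [eβ] at this
    simp only at this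
    linarith
  have p0 := en (-3 / 5) (by norm_num)
  have r0 := en (3 / 5) (by norm_num)
  have far : ∀ η : ℝ, 0 < η → μ - k ≤ Ch * ch η - Sh * sh η := by
    intro η hη
    have := G.closed hp.1 (gg_JJ h hη).le
    rw [hp.2.2, eβ, dot_BB] at this
    simp only [JJ] at this
    linarith
  have near : ∀ η : ℝ, 0 < η → (η < 1 ∨ 4 < η) → k ≤ Ch * ch η - Sh * sh η := by
    intro η hη hc
    have k1 : gg δ (II η) ≤ nn (II η) := by
      by_contra hh
      push Not at hh
      have h2 := h.2.1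
      rcases Imod h hη hh with ⟨a1, -⟩ | ⟨a1, a2⟩
      · obtain ⟨a3, a4⟩ := abs_le.1 a1
        rcases hc with hc | hc <;> linarith
      · rcases hc with hc | hc <;> linarith
    rw [nn_II hη] at k1
    have := G.closed hp.2.1 k1
    rw [eβ] at this
    simp only [II] at this
    linarith
  have p1 : 0 < Ch + Sh := by
    by_contra hh
    have e : Sh = -Ch := by linarith
    have hC : 0 ≤ Ch := by linarith
    have hη : 0 < μ / (2 * (μ + 2 * Ch)) := by positivity
    have a1 := far _ hη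
    have a2 := near _ hη (Or.inl (by rw [div_lt_one (by positivity)]; linarith))
    have a3 : Ch * ch (μ / (2 * (μ + 2 * Ch))) - Sh * sh (μ / (2 * (μ + 2 * Ch))) =
        Ch * (μ / (2 * (μ + 2 * Ch))) := by rw [e]; unfold ch sh; ring
    rw [a3] at a1 a2
    have a4 : Ch * (μ / (2 * (μ + 2 * Ch))) < μ / 2 := by
      rw [← mul_div_assoc, div_lt_div_iff₀ (by positivity) (by positivity)]; nlinarith
    linarith
  have r1 : 0 < Ch - Sh := by
    by_contra hh
    have e : Sh = Ch := by linarith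
    have hC : 0 ≤ Ch := by linarith
    have hη : 0 < (5 * μ + 2 * Ch) / μ := by positivity
    have a1 := far _ hη
    have a2 := near _ hη (Or.inr (by rw [lt_div_iff₀ hμ]; linarith))
    have a3 : Ch * ch ((5 * μ + 2 * Ch) / μ) - Sh * sh ((5 * μ + 2 * Ch) / μ) =
        Ch * (μ / (5 * μ + 2 * Ch)) := by rw [e]; unfold ch sh; rw [inv_div]; ring
    rw [a3] at a1 a2
    have a4 : Ch * (μ / (5 * μ + 2 * Ch)) < μ / 2 := by
      rw [← mul_div_assoc, div_lt_div_iff₀ (by positivity) (by positivity)]; nlinarith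
    linarith
  obtain ⟨η, hη, eη⟩ : ∃ η : ℝ, 0 < η ∧ η ^ 2 * (Ch - Sh) = Ch + Sh :=
    ⟨Real.sqrt ((Ch + Sh) / (Ch - Sh)), by positivity, by
      rw [Real.sq_sqrt (by positivity)]; field_simp⟩
  set m := (Ch - Sh) * η with hm
  have m0 : 0 < m := by positivity
  have c1 : Ch = m * ch η := by
    unfold ch; rw [hm]; field_simp; linear_combination (-1 : ℝ) * eη
  have c2 : Sh = m * sh η := by
    unfold sh; rw [hm]; field_simp; linear_combination (-1 : ℝ) * eη
  have c3 : ∀ v, dot β v = m * dot (bet η (k / m)) v := by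
    intro v
    rw [eβ, dot_bet]
    conv_lhs => rw [c1, c2]
    field_simp
  have hA : Adm (cone (Om (gg δ))) (bet η (k / m)) := by
    intro v hv
    have := hp.2.1 v hv
    rw [c3] at this
    exact (mul_pos_iff_of_pos_left m0).1 this
  have a1 : μ - k ≤ m := by
    have := far η hη
    have e : Ch * ch η - Sh * sh η = m := by
      conv_lhs => rw [c1, c2]
      linear_combination m * ch_sq hη
    linarith
  have s1 := star h hη hA hr ht
  have s2 := G0_id (k := k / m) (t := t) hη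
  have d0 := Dt_pos hη t
  rw [c3, bet_pt hη hq] at eα
  rw [c3, bet_pt hη hq]
  have km : m * (k / m) = k := by field_simp
  have u1 : dot α (pt r t, 1) ≤ m * r * Dt η t := by
    rw [eα]
    have : m * (r * (Dt η t - (1 + k / m) * (1 + t ^ 2))) =
        m * r * Dt η t - (m + k) * (r * (1 + t ^ 2)) := by
      linear_combination (-(r * (1 + t ^ 2))) * km
    rw [this]; nlinarith
  have u2 : 1 - gg δ (pt r t) ≤ r * (3 + t ^ 2 / 2 - G0 η (k / m) t) := by linarith
  calc dot α (pt r t, 1) * (1 - gg δ (pt r t))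
      ≤ m * r * Dt η t * (r * (3 + t ^ 2 / 2 - G0 η (k / m) t)) :=
        mul_le_mul u1 u2 (by linarith) (by positivity)
    _ = _ := by linear_combination (m * r * r) * s2

lemma on_conic (h : Good δ) {r t : ℝ} (hr : 0 < r) (ht : t ^ 2 < 2 / 3)
    (hq : r * (2 - t ^ 2 / 2) = 1) : pt r t ∈ Om (gg δ) ∧ RR (gg δ) (pt r t) = 0 := by
  have G := gauge h
  have h1 := h.1
  have h2 := h.2.1
  have n1 := nn_pt hr.le t
  have x1 : (pt r t).1 = r * (1 - t ^ 2) := rfl
  have x0 : nn (pt r t) < 5 * (pt r t).1 := by rw [n1, x1]; nlinarith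
  have x2 := nn_nonneg (pt r t)
  have hc : ∀ w : ℝ × ℝ, nn w = nn (pt r t) → |w.1| = (pt r t).1 → cut δ w ≤ nn w := by
    intro w a1 a2
    apply cut_le h; left; rw [a1, a2]; linarith
  have hc1 := hc (pt r t) rfl (abs_of_pos (by linarith))
  have hX : gg δ (pt r t) < 1 := by
    by_cases hs : inS δ (pt r t)
    · have a1 := (inS_pos h hs).1
      have a2 := gg_hi h (pt r t)
      rw [n1] at a1 a2
      rw [x1] at a1
      have : δ ^ 2 / 50 ≤ 1 / 100 := by nlinarith
      have : r * t ^ 2 < r / 2 := by nlinarith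
      nlinarith
    · rw [gg_eq h hs hc1, n1]; nlinarith
  have gm : gg δ (-pt r t) = r * (1 + t ^ 2) := by
    rw [gg_eq h, nn_neg, n1]
    · intro hs
      have := (inS_pos h hs).1
      rw [nn_neg, Prod.fst_neg] at this
      linarith
    · exact hc _ (nn_neg _) (by rw [Prod.fst_neg, abs_neg, abs_of_pos (by linarith)])
  refine ⟨hX, ?_⟩
  have hC := G.cone_ok
  have eN : 1 + r * (1 + t ^ 2) = r * (3 + t ^ 2 / 2) := by linarith
  unfold RR
  rw [gm, eN]
  have E0 := Real.exp_pos (2 * W (Om (gg δ)) (pt r t))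
  apply le_antisymm
  · obtain ⟨α, β, μ, hp, k1⟩ := strongW hC G.h0 hX
    have k2 := classify h hp hr ht hq hX
    have pb := hp.2.1 _ ((mem_cone _).2 hX)
    have k3 := mul_le_mul_of_nonneg_right k1 (show 0 ≤ 1 - gg δ (pt r t) by linarith)
    have : dot β (pt r t, 1) * (Real.exp (2 * W (Om (gg δ)) (pt r t)) * (1 - gg δ (pt r t))) ≤
      dot β (pt r t, 1) * (r * (3 + t ^ 2 / 2)) := by linarith
    have := le_of_mul_le_mul_left this pb
    linarith
  · have key : ∀ η k, 0 < η → Adm (cone (Om (gg δ))) (bet η k) → r * (G0 η k t - (1 + t ^ 2)) ≤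
        1 - r * (3 + t ^ 2 / 2) / Real.exp (2 * W (Om (gg δ)) (pt r t)) := by
      intro η k hη hA
      have k1 := weak hC G.h0 hX (pair_bet h hη hA)
      rw [bet_pt hη hq, bet_pt hη hq] at k1
      have s2 := G0_id (k := k) (t := t) hη
      have d0 := Dt_pos hη t
      generalize Real.exp (2 * W (Om (gg δ)) (pt r t)) = E at *
      have : r * (3 + t ^ 2 / 2) / E ≤ r * (3 + t ^ 2 / 2 - G0 η k t) := by
        rw [div_le_iff₀ E0]
        apply le_of_mul_le_mul_right _ d0
        have := mul_le_mul_of_nonneg_left k1 (show 0 ≤ 3 + t ^ 2 / 2 by positivity)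
        have e : r * (3 + t ^ 2 / 2 - G0 η k t) * E * Dt η t =
          (3 + t ^ 2 / 2) * (E * (r * (Dt η t - (1 + k) * (1 + t ^ 2)))) := by
          linear_combination (r * E) * s2
        rw [e]; linarith
      linarith
    have t1 : 0 < 2 - t := by nlinarith
    have t2 : 0 < 2 + t := by nlinarith
    have hη : 0 < (2 + t) / (2 - t) := by positivity
    have k0 := key _ 1 hη (adm_pm h hη (by norm_num))
    have e0 : G0 ((2 + t) / (2 - t)) 1 t = 2 * (1 + t ^ 2) := by
      unfold G0 Ut Dt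
      rw [div_mul_cancel₀ _ t1.ne']
      field_simp
      ring
    rw [e0] at k0
    have hU : Up δ (pt r t) (1 - r * (3 + t ^ 2 / 2) / Real.exp (2 * W (Om (gg δ)) (pt r t))) := by
      refine ⟨?_, fun r' t' η k hr' _ e hK => ?_⟩
      · rw [base, max_eq_left hc1, n1]; linarith
      · obtain ⟨rfl, rfl⟩ := pt_inj hr hr' e
        exact key η k (hK.pos h) (adm_K h hK)
    have k4 := gg_le hU
    have k5 : r * (3 + t ^ 2 / 2) / Real.exp (2 * W (Om (gg δ)) (pt r t)) ≤ 1 - gg δ (pt r t) := by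
      linarith
    rw [div_le_iff₀ E0] at k5
    linarith

end Pool.Agent.H.MP_3498ef_gt
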