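import Pool.Agent.H.MP_3498ef_gt.E

set_option autoImplicit false

namespace Pool.Agent.H.MP_3498ef_gt

open Filter Topology Set Pool.Agent.H.MP_2655df_gt

variable {δ : ℝ}

lemma RR_pos (h : Good δ) {X : ℝ × ℝ} (hX : X ∈ Om (gg δ)) {α β : V} {μ : ℝ}
    (hp : Pair (cone (Om (gg δ))) α β μ)
    (hk : dot β (X, 1) * (1 + gg δ (-X)) < dot α (X, 1) * (1 - gg δ X)) : 0 < RR (gg δ) X := by
  have G := gauge h
  have k1 := weak G.cone_ok G.h0 hX hp
  have pb := hp.2.1 _ ((mem_cone _).2 hX)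
  have hX' : gg δ X < 1 := hX
  have k2 := mul_le_mul_of_nonneg_right k1 (show 0 ≤ 1 - gg δ X by linarith)
  unfold RR
  have : dot β (X, 1) * (1 + gg δ (-X)) <
      dot β (X, 1) * (Real.exp (2 * W (Om (gg δ)) X) * (1 - gg δ X)) := by linarith
  have := lt_of_mul_lt_mul_left this pb.le
  linarith

lemma off_aux (h : Good δ) {X γ : ℝ × ℝ} (hX : X ∈ Om (gg δ)) {μ : ℝ} (hμ : 0 < μ)
    (h1 : ∀ w : ℝ × ℝ, γ.1 * w.1 + γ.2 * w.2 ≤ gg δ w) (h2 : γ.1 * X.1 + γ.2 * X.2 = gg δ X)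
    (h3 : γ.1 ^ 2 + γ.2 ^ 2 - 1 ≤ μ * (2 * ((4 - 5 * γ.1) / 3) - μ))
    (h4 : gg δ X + gg δ (-X) ≤ μ * ((4 * gg δ X - 5 * X.1) / 3)) : 0 < RR (gg δ) X := by
  have G := gauge h
  have hX' : gg δ X < 1 := hX
  apply RR_pos h hX (α := ((-γ.1 - 5 / 3 * μ, -γ.2), 1 + 4 / 3 * μ)) (β := (-γ, 1)) (μ := μ)
  · refine ⟨adm_disc h (by positivity) (by simp only; nlinarith), fun v hv => ?_, fun v => ?_⟩
    · rw [G.mem] at hv
      have := h1 v.1
      simp only [dot, Prod.fst_neg, Prod.snd_neg]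
      linarith
    · rw [dot_BB]; simp only [dot, Prod.fst_neg, Prod.snd_neg]; ring
  · have e1 : dot (-γ, 1) (X, 1) = 1 - gg δ X := by
      simp only [dot, Prod.fst_neg, Prod.snd_neg]; linarith
    have e2 : dot ((-γ.1 - 5 / 3 * μ, -γ.2), 1 + 4 / 3 * μ) (X, 1) =
        1 - gg δ X + μ * ((4 - 5 * X.1) / 3) := by
      simp only [dot]; linarith
    rw [e1, e2, mul_comm]
    apply mul_lt_mul_of_pos_right _ (by linarith)
    nlinarith

lemma off_conic (h : Good δ) {X : ℝ × ℝ} (hX : X ∈ Om (gg δ)) (hx : 5 * X.1 ≤ nn X) :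
    0 < RR (gg δ) X := by
  have G := gauge h
  have h1 := h.1
  have h2 := h.2.1
  by_cases h0 : X = 0
  · subst h0
    apply RR_pos h hX (pair_bet h one_pos (adm_pm (k := 1) h one_pos (by norm_num)))
    rw [neg_zero, G.zero, dot_bet, dot_bet]
    norm_num [ch, sh]
  have n0 := nn_pos h0
  have hs : ¬ inS δ X := fun hs => by linarith [(inS_pos h hs).1]
  obtain ⟨e, e1, e2, e3⟩ : ∃ e : ℝ × ℝ, nn e = 1 ∧ X.1 = nn X * e.1 ∧ X.2 = nn X * e.2 :=
    ⟨(nn X)⁻¹ • X, by rw [nn_smul _ (inv_pos.2 n0).le, inv_mul_cancel₀ n0.ne'],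
      by simp only [Prod.smul_fst, smul_eq_mul]; field_simp,
      by simp only [Prod.smul_snd, smul_eq_mul]; field_simp⟩
  have e4 : e.1 ^ 2 + e.2 ^ 2 = 1 := by rw [← nn_sq, e1]; norm_num
  have e5 : e.1 * X.1 + e.2 * X.2 = nn X := by rw [e2, e3]; linear_combination nn X * e4
  have e6 : ∀ w : ℝ × ℝ, e.1 * w.1 + e.2 * w.2 ≤ nn w := fun w => by simpa [e1] using cs e w
  have gm := G.hi (-X)
  rw [nn_neg] at gm
  have e7 : 5 * e.1 ≤ 1 := by nlinarith
  rcases le_or_gt (cut δ X) (nn X) with hc | hc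
  · have eg := gg_eq h hs hc
    apply off_aux h hX (γ := e) (μ := 2 * ((4 - 5 * e.1) / 3)) (by linarith)
      (fun w => le_trans (e6 w) (gg_lo h w)) (by rw [e5, eg]) (by rw [e4]; simp)
    rw [eg, e2]
    have e8 : 2 * ((4 - 5 * e.1) / 3) * ((4 * nn X - 5 * (nn X * e.1)) / 3) =
      nn X * (2 * ((4 - 5 * e.1) / 3) ^ 2) := by ring
    rw [e8]
    rcases le_or_gt (10 * e.1) 1 with h5 | h5
    · have : 17 / 8 ≤ 2 * ((4 - 5 * e.1) / 3) ^ 2 := by nlinarith
      nlinarith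
    · have x0 : nn X < 10 * X.1 := by nlinarith
      have : gg δ (-X) = nn X := by
        rw [gg_eq h, nn_neg]
        · intro hs
          have := (inS_pos h hs).1
          rw [nn_neg, Prod.fst_neg] at this
          linarith
        · apply cut_le h; left
          rw [nn_neg, Prod.fst_neg, abs_neg, abs_of_pos (by linarith)]; exact x0.le
      rw [this]
      have : 2 ≤ 2 * ((4 - 5 * e.1) / 3) ^ 2 := by nlinarith
      nlinarith
  · have eg : gg δ X = cut δ X := by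
      apply le_antisymm _ (gg_cut h X)
      have := gg_le (up_out hs)
      rwa [base, max_eq_right hc.le] at this
    have x0 : 10 * |X.1| < nn X := by
      by_contra hh
      push Not at hh
      linarith [cut_le h (Or.inl hh)]
    have x1 := le_abs_self X.1
    have x2 := G.lo X
    have d2 : δ ^ 2 / 250 ≤ 1 / 1000 := by nlinarith
    have d3 : 0 ≤ δ ^ 2 / 250 := by positivity
    have e9 : 10 * e.1 < 1 := by nlinarith
    have e10 : e.2 ≤ 1 := by nlinarith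
    apply off_aux h hX (γ := (e.1 / 2, e.2 / 2 + (1 / 2 + δ ^ 2 / 250))) (μ := 2) two_pos
    · intro w
      have := gg_cut h w
      have := e6 w
      unfold cut at *
      simp only; linarith
    · rw [eg]; unfold cut; simp only; linarith
    · simp only; nlinarith
    · linarith

theorem conic (h : Good δ) (X : ℝ × ℝ) (hX : X ∈ Om (gg δ)) :
    dd (Om (gg δ)) 0 X = W (Om (gg δ)) X ↔ 9 * (X.1 ^ 2 + X.2 ^ 2) = (4 - 5 * X.1) ^ 2 := by
  have G := gauge h
  have hX' : gg δ X < 1 := hX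
  have n1 : nn X < 1 := lt_of_le_of_lt (G.lo X) hX'
  have n0 := nn_nonneg X
  have s := nn_sq X
  have x1 := (abs_le.1 (abs1 X)).2
  rw [G.iff hX]
  have par : nn X < 5 * X.1 → ∃ r t : ℝ, 0 < r ∧ t ^ 2 < 2 / 3 ∧ X = pt r t := by
    intro hx
    rcases param X with ⟨r, t, hr, rfl⟩ | ⟨-, a2⟩
    · refine ⟨r, t, hr, ?_, rfl⟩
      rw [nn_pt hr.le] at hx
      simp only [pt] at hx
      nlinarith
    · linarith
  constructor
  · intro hR
    have hx : nn X < 5 * X.1 := by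
      by_contra hh
      push Not at hh
      linarith [off_conic h hX hh]
    obtain ⟨r, t, hr, ht, rfl⟩ := par hx
    have q0 : 0 < 2 - t ^ 2 / 2 := by linarith
    obtain ⟨a1, a2⟩ := on_conic h (r := 1 / (2 - t ^ 2 / 2)) (t := t) (by positivity) ht
      (one_div_mul_cancel q0.ne')
    have sm : ∀ ρ : ℝ, pt ρ t = ρ • pt 1 t := fun ρ => by ext <;> simp [pt]
    have u0 : pt 1 t ≠ 0 := fun h0 => by
      have := congrArg Prod.fst h0
      simp [pt] at this; linarith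
    have e : r = 1 / (2 - t ^ 2 / 2) := by
      rw [sm] at a1 a2 hX hR
      rcases lt_trichotomy r (1 / (2 - t ^ 2 / 2)) with hc | hc | hc
      · linarith [G.uniq u0 hr.le hc a1 hR.le]
      · exact hc
      · linarith [G.uniq u0 (by positivity) hc hX a2.le]
    have e2 : r * (2 - t ^ 2 / 2) = 1 := by rw [e]; exact one_div_mul_cancel q0.ne'
    rw [← s, nn_pt hr.le]
    simp only [pt]
    have : 4 - 5 * (r * (1 - t ^ 2)) = 3 * (r * (1 + t ^ 2)) := by linarith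
    rw [this]; ring
  · intro hQ
    rw [← s] at hQ
    have e : 3 * nn X = 4 - 5 * X.1 := by
      have : (3 * nn X - (4 - 5 * X.1)) * (3 * nn X + (4 - 5 * X.1)) = 0 := by linarith
      rcases mul_eq_zero.1 this with h | h <;> linarith
    obtain ⟨r, t, hr, ht, rfl⟩ := par (by linarith)
    refine (on_conic h hr ht ?_).2
    rw [nn_pt hr.le] at e
    simp only [pt] at e
    linarith

theorem not_ellipse (h : Good δ) (f : (ℝ × ℝ) ≃ᵃ[ℝ] (ℝ × ℝ)) :
    Om (gg δ) ≠ f '' {p : ℝ × ℝ | p.1 ^ 2 + p.2 ^ 2 < 1} := by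
  intro hf
  have G := gauge h
  obtain ⟨o, a, b, hl⟩ : ∃ o a b : ℝ × ℝ, ∀ x y : ℝ, f.symm (x, y) = o + x • a + y • b := by
    refine ⟨f.symm 0, f.symm.linear (1, 0), f.symm.linear (0, 1), fun x y => ?_⟩
    have e : ((x, y) : ℝ × ℝ) = (x • ((1, 0) : ℝ × ℝ) + y • ((0, 1) : ℝ × ℝ)) +ᵥ (0 : ℝ × ℝ) := by
      ext <;> simp
    rw [e, AffineEquiv.map_vadd, map_add, map_smul, map_smul, vadd_eq_add]; abel
  have mem : ∀ x y : ℝ, gg δ (x, y) < 1 ↔
      (o.1 + x * a.1 + y * b.1) ^ 2 + (o.2 + x * a.2 + y * b.2) ^ 2 < 1 := by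
    intro x y
    have : (x, y) ∈ Om (gg δ) ↔ f.symm (x, y) ∈ {p : ℝ × ℝ | p.1 ^ 2 + p.2 ^ 2 < 1} := by
      rw [hf]
      constructor
      · rintro ⟨p, hp, e⟩; rw [← e]; simpa using hp
      · intro hp; exact ⟨_, hp, by simp⟩
    rw [hl] at this
    simpa [Om] using this
  have bd : ∀ x y : ℝ, x ^ 2 + y ^ 2 = 1 → y ≤ 0 →
      (o.1 + x * a.1 + y * b.1) ^ 2 + (o.2 + x * a.2 + y * b.2) ^ 2 = 1 := by
    intro x y h1 h2
    have e : gg δ (x, y) = 1 := by
      rw [gg_eq h (fun hs => by linarith [(inS_pos h hs).2.2]) (cut_le h (Or.inr h2))]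
      exact nn_eq (by norm_num) (by simp only; linarith)
    apply le_antisymm
    · have c : Continuous fun r : ℝ =>
          (o.1 + r * x * a.1 + r * y * b.1) ^ 2 + (o.2 + r * x * a.2 + r * y * b.2) ^ 2 := by
        fun_prop
      have l := (c.tendsto 1).mono_left (nhdsWithin_le_nhds (s := Iio 1))
      simp only [one_mul] at l
      apply le_of_tendsto l
      filter_upwards [Ioo_mem_nhdsLT (show (0 : ℝ) < 1 by norm_num)] with r hr
      apply le_of_lt
      rw [← mem]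
      have := G.hom (x, y) r hr.1.le
      simp only [Prod.smul_mk, smul_eq_mul] at this
      rw [this, e]; linarith [hr.2]
    · by_contra hh
      push Not at hh
      rw [← mem] at hh; linarith
  have p1 := bd 1 0 (by norm_num) le_rfl
  have p2 := bd (-1) 0 (by norm_num) le_rfl
  have p3 := bd 0 (-1) (by norm_num) (by norm_num)
  have p4 := bd (3 / 5) (-4 / 5) (by norm_num) (by norm_num)
  have p5 := bd (-3 / 5) (-4 / 5) (by norm_num) (by norm_num)
  have p0 := (mem 0 0).1 (by rw [show ((0, 0) : ℝ × ℝ) = 0 from rfl, G.zero]; norm_num)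
  have h1 := h.1
  have y0 : 0 < 1 / (1 + δ ^ 2 / 250) := by positivity
  have y1 : 1 / (1 + δ ^ 2 / 250) < 1 := by
    rw [div_lt_one (by positivity)]; exact lt_add_of_pos_right _ (by positivity)
  have k1 := gg_cut h (0, 1 / (1 + δ ^ 2 / 250))
  have k2 : cut δ (0, 1 / (1 + δ ^ 2 / 250)) = 1 := by
    unfold cut
    rw [nn_eq y0.le (by simp)]
    simp only; field_simp; ring
  have k3 : ¬ gg δ (0, 1 / (1 + δ ^ 2 / 250)) < 1 := not_lt.2 (by rw [k2] at k1; exact k1)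
  rw [mem] at k3
  apply k3
  generalize 1 / (1 + δ ^ 2 / 250) = y at y0 y1
  have q1 : o.1 * b.1 + o.2 * b.2 = 0 := by
    linear_combination (-25 / 16) * (p4 + p5) + (9 / 16) * (p1 + p2) + 2 * p3
  have q2 : b.1 ^ 2 + b.2 ^ 2 = 1 - (o.1 ^ 2 + o.2 ^ 2) := by linear_combination p3 + 2 * q1
  have : (o.1 + 0 * a.1 + y * b.1) ^ 2 + (o.2 + 0 * a.2 + y * b.2) ^ 2 =
      1 - (1 - (o.1 ^ 2 + o.2 ^ 2)) * (1 - y ^ 2) := by
    linear_combination 2 * y * q1 + y ^ 2 * q2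
  rw [this]
  have : 0 < (1 - (o.1 ^ 2 + o.2 ^ 2)) * (1 - y ^ 2) := 
    mul_pos (by simp only [zero_mul, add_zero] at p0; exact sub_pos.2 p0)
      (sub_pos.2 (pow_lt_one₀ y0.le y1 two_ne_zero))
  exact sub_lt_self _ this

end Pool.Agent.H.MP_3498ef_gt
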